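import Mathlib
import Pool.Agent.H99.W.RoomSy

set_option autoImplicit false
open Finset

/-! # One exit: the abstract form (Route W, module D7b)

`F` : face function, `V` : vertex function, `K` : closed tiles at which the vertex function is used,
`D` : deleted tiles. The value of a corner is `F` of its face if one of its two tiles is neither in `K`
nor deleted, otherwise `V` of its vertex. `exit_one` : all edges of the strand graph from corners of
value `1` to the other corners lead to one corner `b`. -/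

namespace Pool.Agent.H1.W

open Pool.Agent.H75.Perc Pool.Agent.H75.TwoArm Pool.Agent.H60.Q1 Pool.Agent.H13.W Pool.Agent.H99.W

variable {Λ D K : Set (ℤ × ℤ)} {w : Finset (ℤ × ℤ)} {F V : ℤ × ℤ → ZMod 2} {b c e : ℤ × ℤ}

open Classical in
/-- value of a corner -/
noncomputable def val (D K : Set (ℤ × ℤ)) (F V : ℤ × ℤ → ZMod 2) (c : ℤ × ℤ) : ZMod 2 :=
  if (lab c ∈ K ∨ lab c ∈ D) ∧ (plab c ∈ K ∨ plab c ∈ D) then V (vx c) else F (fi c)

lemma val_F (he : e = lab c ∨ e = plab c) (hK : e ∉ K) (hD : e ∉ D) :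
    val D K F V c = F (fi c) := by
  unfold val
  rw [if_neg]
  rintro ⟨h1, h2⟩
  rcases he with rfl | rfl
  · exact h1.elim hK hD
  · exact h2.elim hK hD

lemma val_V (h1 : lab c ∈ K ∨ lab c ∈ D) (h2 : plab c ∈ K ∨ plab c ∈ D) :
    val D K F V c = V (vx c) := by
  unfold val
  rw [if_pos ⟨h1, h2⟩]

/-- **One exit.** -/
theorem exit_one (hKw : ∀ e ∈ K, e ∉ w)
    (hN : ∀ e ∈ Λ, e ∉ K → e ∉ D → e ∉ w → FC F e)
    (hD : ∀ e ∈ Λ, e ∈ D → (e.1 + e.2) % 2 = 1 → val D K F V (eS e) = val D K F V (eN e))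
    (hK : ∀ c, ((lab c ∈ K ∧ plab c ∉ K ∧ plab c ∉ D) ∨ (plab c ∈ K ∧ lab c ∉ K ∧ lab c ∉ D)) →
      c ≠ b → F (fi c) = V (vx c))
    (hb : val D K F V b = 0) :
    ∀ u v, u ∈ {c | val D K F V c = 1} → v ∉ {c | val D K F V c = 1} → (SG Λ D w).Adj u v →
      v = b := by
  rintro u v hu hv ⟨e, heΛ, hT⟩
  simp only [Set.mem_setOf_eq] at hu hv
  by_cases heD : e ∈ D
  · exfalso
    rcases hT with ⟨-, h0, h | h⟩ | ⟨h, -⟩
    · rw [h.1] at hu
      rw [h.2] at hv
      exact hv ((hD e heΛ heD h0).symm.trans hu)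
    · rw [h.2] at hu
      rw [h.1] at hv
      exact hv ((hD e heΛ heD h0).trans hu)
    · exact h heD
  · by_cases heK : e ∈ K
    · -- closed tile of `K`
      have hvx : V (vx u) = V (vx v) := TJ_dual heD (fun h => absurd h (hKw e heK)) hT
      have key : ∀ c, (e = lab c ∨ e = plab c) → c ≠ b → val D K F V c = V (vx c) := by
        intro c hc hcb
        unfold val
        by_cases h : (lab c ∈ K ∨ lab c ∈ D) ∧ (plab c ∈ K ∨ plab c ∈ D)
        · rw [if_pos h]
        · rw [if_neg h]
          refine hK c ?_ hcb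
          rcases hc with hc | hc
          · left
            have h1 : lab c ∈ K := hc ▸ heK
            refine ⟨h1, fun h2 => h ⟨Or.inl h1, Or.inl h2⟩, fun h2 => h ⟨Or.inl h1, Or.inr h2⟩⟩
          · right
            have h1 : plab c ∈ K := hc ▸ heK
            refine ⟨h1, fun h2 => h ⟨Or.inl h2, Or.inl h1⟩, fun h2 => h ⟨Or.inr h2, Or.inl h1⟩⟩
      have hub : u ≠ b := by
        rintro rfl
        rw [hb] at hu
        exact absurd hu (by decide)
      by_contra hvb
      rw [key u hT.label hub] at hu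
      rw [key v hT.label' hvb] at hv
      exact hv (hvx.symm.trans hu)
    · exfalso
      have h1 : F (fi u) = F (fi v) := TJ_prim heD (fun h => hN e heΛ heK heD h) hT
      rw [val_F hT.label heK heD] at hu
      rw [val_F hT.label' heK heD] at hv
      exact hv (h1.symm.trans hu)

end Pool.Agent.H1.W
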