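import Mathlib
import Pool.Agent.H1.W.Exit

set_option autoImplicit false
open Finset

/-! # One exit of a white circuit across a chord of solid plates (Route W, module D7b)

Tile frame: the label `e` is the tile `(tX e, tY e)`. The chord is `bt x ≤ y < tp x` (`tp` antitone, `bt`
monotone), the deleted tiles are in the rows `[Yl, Yh)`, strictly inside the chord. Plate `j` : columns
`[a0,a1)`, plate `i` : columns `[c0,c1)`. `p`, `p'` (`q`, `q'`) : feet of the white paths on the upper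
(lower) bank of the plates `j`, `i`. The rest of the world is arbitrary. -/

namespace Pool.Agent.H1.W

open Pool.Agent.H75.Perc Pool.Agent.H75.TwoArm Pool.Agent.H60.Q1 Pool.Agent.H13.W Pool.Agent.H99.W

/-- column of a tile -/
def tX (e : ℤ × ℤ) : ℤ := (e.1 + e.2 - 1) / 2
/-- row of a tile -/
def tY (e : ℤ × ℤ) : ℤ := (e.2 - e.1 - 1) / 2

/-- value `1` if the proposition holds -/
noncomputable def ind (P : Prop) : ZMod 2 := open Classical in if P then 1 else 0

lemma ind_true {P : Prop} (h : P) : ind P = 1 := by unfold ind; rw [if_pos h]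
lemma ind_false {P : Prop} (h : ¬ P) : ind P = 0 := by unfold ind; rw [if_neg h]
lemma ind_congr {P Q : Prop} (h : P ↔ Q) : ind P = ind Q := by
  unfold ind
  by_cases hP : P
  · rw [if_pos hP, if_pos (h.1 hP)]
  · rw [if_neg hP, if_neg (fun hq => hP (h.2 hq))]

/-- geometry of the chord, of the deleted rows and of the feet -/
structure Geo (D : Set (ℤ × ℤ)) (tp bt : ℤ → ℤ) (Yl Yh a0 a1 c0 c1 : ℤ) (p p' q q' : ℤ × ℤ) :
    Prop where
  tpa : ∀ x y, x ≤ y → tp y ≤ tp x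
  btm : ∀ x y, x ≤ y → bt x ≤ bt y
  lo : ∀ x, bt x < Yl
  hi : ∀ x, Yh < tp x
  YY : Yl ≤ Yh
  a01 : a0 < a1
  ac : a1 < c0
  c01 : c0 < c1
  Drow : ∀ e ∈ D, (e.1 + e.2) % 2 = 1 → Yl ≤ tY e ∧ tY e < Yh
  bp1 : tp (p.1 + p.2) ≤ p.2 - p.1
  bp2 : p.2 - p.1 ≤ tp (p.1 + p.2 - 1)
  bp1' : tp (p'.1 + p'.2) ≤ p'.2 - p'.1
  bp2' : p'.2 - p'.1 ≤ tp (p'.1 + p'.2 - 1)
  bq1 : q.2 - q.1 ≤ bt (q.1 + q.2)
  bq2 : bt (q.1 + q.2 - 1) ≤ q.2 - q.1
  bq1' : q'.2 - q'.1 ≤ bt (q'.1 + q'.2)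
  bq2' : bt (q'.1 + q'.2 - 1) ≤ q'.2 - q'.1
  fp1 : a0 - tp a0 ≤ 2 * p.1
  fp2 : 2 * p.1 ≤ a1 - tp a1
  fp1' : c0 - tp c0 ≤ 2 * p'.1
  fp2' : 2 * p'.1 ≤ c1 - tp c1
  fq1 : a0 + bt a0 ≤ 2 * q.2
  fq2 : 2 * q.2 ≤ a1 + bt a1
  fq1' : c0 + bt c0 ≤ 2 * q'.2
  fq2' : 2 * q'.2 ≤ c1 + bt c1

/-- the face function -/
noncomputable def Fc (tp bt : ℤ → ℤ) (a0 c1 : ℤ) (Su Sl : ℤ × ℤ → ZMod 2) (f : ℤ × ℤ) : ZMod 2 :=
  if tp (f.1 + f.2 - 1) ≤ f.2 - f.1 then Su f
  else if f.2 - f.1 ≤ bt (f.1 + f.2 - 1) then Sl f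
  else ind (a0 < f.1 + f.2 - 1 ∧ f.1 + f.2 - 1 < c1)

/-- the vertex function -/
noncomputable def Vc (tp bt : ℤ → ℤ) (a0 c1 : ℤ) (p p' q q' : ℤ × ℤ) (v : ℤ × ℤ) : ZMod 2 :=
  if tp (v.1 + v.2) ≤ v.2 - v.1 then ind (p.1 ≤ v.1 ∧ v.1 ≤ p'.1)
  else if v.2 - v.1 ≤ bt (v.1 + v.2) then ind (q.2 ≤ v.2 ∧ v.2 ≤ q'.2)
  else ind (a0 < v.1 + v.2 ∧ v.1 + v.2 < c1)

/-- the face functions of the two rooms -/
structure Rm (Λ : Set (ℤ × ℤ)) (w : Finset (ℤ × ℤ)) (tp bt : ℤ → ℤ) (p p' q q' : ℤ × ℤ)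
    (Su Sl : ℤ × ℤ → ZMod 2) : Prop where
  odd : ∀ e ∈ Λ, (e.1 + e.2) % 2 = 1
  FCu : ∀ e ∈ Λ, tp (tX e) ≤ tY e → e ∉ w → FC Su e
  FCl : ∀ e ∈ Λ, tY e < bt (tX e) → e ∉ w → FC Sl e
  bu : ∀ f : ℤ × ℤ, tp (f.1 + f.2 - 1) ≤ f.2 - f.1 → f.2 - f.1 ≤ tp (f.1 + f.2 - 2) →
    Su f = ind (p.1 < f.1 ∧ f.1 ≤ p'.1)
  bl : ∀ f : ℤ × ℤ, f.2 - f.1 ≤ bt (f.1 + f.2 - 1) → bt (f.1 + f.2 - 2) ≤ f.2 - f.1 →
    Sl f = ind (q.2 < f.2 ∧ f.2 ≤ q'.2)

variable {Λ D : Set (ℤ × ℤ)} {w : Finset (ℤ × ℤ)} {tp bt : ℤ → ℤ} {Yl Yh kb a0 a1 c0 c1 : ℤ}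
  {p p' q q' : ℤ × ℤ} {Su Sl : ℤ × ℤ → ZMod 2}

/-- the value of the face function at the corners of the tiles of the chord -/
lemma Rm.val (R : Rm Λ w tp bt p p' q q' Su Sl) {f : ℤ × ℤ}
    (h1 : bt (f.1 + f.2 - 2) ≤ f.2 - f.1) (h2 : f.2 - f.1 ≤ tp (f.1 + f.2 - 2)) :
    Fc tp bt a0 c1 Su Sl f =
      if tp (f.1 + f.2 - 1) ≤ f.2 - f.1 then ind (p.1 < f.1 ∧ f.1 ≤ p'.1)
      else if f.2 - f.1 ≤ bt (f.1 + f.2 - 1) then ind (q.2 < f.2 ∧ f.2 ≤ q'.2)
      else ind (a0 < f.1 + f.2 - 1 ∧ f.1 + f.2 - 1 < c1) := by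
  unfold Fc
  by_cases g1 : tp (f.1 + f.2 - 1) ≤ f.2 - f.1
  · rw [if_pos g1, if_pos g1, R.bu f g1 h2]
  · rw [if_neg g1, if_neg g1]
    by_cases g2 : f.2 - f.1 ≤ bt (f.1 + f.2 - 1)
    · rw [if_pos g2, if_pos g2, R.bl f g2 h1]
    · rw [if_neg g2, if_neg g2]

/-- the two faces of a label -/
lemma faces_cases {f g e : ℤ × ℤ} (h : IsUnit4 (g - f)) (he : f + g - (1, 1) = e) :
    ∃ i j : ℤ, ((f = (i, j) ∧ g = (i + 1, j) ∨ g = (i, j) ∧ f = (i + 1, j)) ∧ e = (2 * i, 2 * j - 1)) ∨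
      ((f = (i, j) ∧ g = (i, j + 1) ∨ g = (i, j) ∧ f = (i, j + 1)) ∧ e = (2 * i - 1, 2 * j)) := by
  obtain ⟨a, b⟩ := f
  obtain ⟨c, d⟩ := g
  obtain ⟨x, y⟩ := e
  unfold IsUnit4 at h
  simp only [Prod.ext_iff, Prod.fst_sub, Prod.snd_sub, Prod.fst_add, Prod.snd_add] at h he
  rcases h with h | h | h | h
  · exact ⟨a, b, Or.inl ⟨Or.inl ⟨rfl, by rw [Prod.mk.injEq]; omega⟩, by rw [Prod.mk.injEq]; omega⟩⟩
  · exact ⟨a, b, Or.inr ⟨Or.inl ⟨rfl, by rw [Prod.mk.injEq]; omega⟩, by rw [Prod.mk.injEq]; omega⟩⟩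
  · exact ⟨c, d, Or.inl ⟨Or.inr ⟨rfl, by rw [Prod.mk.injEq]; omega⟩, by rw [Prod.mk.injEq]; omega⟩⟩
  · exact ⟨c, d, Or.inr ⟨Or.inr ⟨rfl, by rw [Prod.mk.injEq]; omega⟩, by rw [Prod.mk.injEq]; omega⟩⟩

/-- left of plate `j` the value is `0` -/
lemma Rm.val_left (R : Rm Λ w tp bt p p' q q' Su Sl) (G : Geo D tp bt Yl Yh a0 a1 c0 c1 p p' q q')
    {f : ℤ × ℤ} (h1 : bt (f.1 + f.2 - 2) ≤ f.2 - f.1) (h2 : f.2 - f.1 ≤ tp (f.1 + f.2 - 2))
    (h3 : f.1 + f.2 - 1 ≤ a0) : Fc tp bt a0 c1 Su Sl f = 0 := by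
  have k1 := G.fp1
  have k2 := G.fq1
  have k3 := G.tpa _ _ h3
  have k4 := G.btm _ _ h3
  rw [R.val h1 h2]
  split_ifs with g1 g2
  · exact ind_false (by omega)
  · exact ind_false (by omega)
  · exact ind_false (by omega)

/-- right of plate `i` the value is `0` -/
lemma Rm.val_right (R : Rm Λ w tp bt p p' q q' Su Sl) (G : Geo D tp bt Yl Yh a0 a1 c0 c1 p p' q q')
    {f : ℤ × ℤ} (h1 : bt (f.1 + f.2 - 2) ≤ f.2 - f.1) (h2 : f.2 - f.1 ≤ tp (f.1 + f.2 - 2))
    (h3 : c1 ≤ f.1 + f.2 - 1) (h4 : bt c1 ≤ f.2 - f.1) (h5 : f.2 - f.1 ≤ tp c1) :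
    Fc tp bt a0 c1 Su Sl f = 0 := by
  have k1 := G.fp2'
  have k2 := G.fq2'
  rw [R.val h1 h2]
  split_ifs with g1 g2
  · exact ind_false (by omega)
  · exact ind_false (by omega)
  · exact ind_false (by omega)

/-- between the plates `j` and `i` the value is `1` -/
lemma Rm.val_mid (R : Rm Λ w tp bt p p' q q' Su Sl) (G : Geo D tp bt Yl Yh a0 a1 c0 c1 p p' q q')
    {f : ℤ × ℤ} (h1 : bt (f.1 + f.2 - 2) ≤ f.2 - f.1) (h2 : f.2 - f.1 ≤ tp (f.1 + f.2 - 2))
    (h3 : a1 ≤ f.1 + f.2 - 1) (h3' : f.1 + f.2 - 1 ≤ c0) (h4 : bt a1 ≤ f.2 - f.1)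
    (h5 : f.2 - f.1 ≤ tp a1) : Fc tp bt a0 c1 Su Sl f = 1 := by
  have k1 := G.fp2
  have k2 := G.fq2
  have k3 := G.fp1'
  have k4 := G.fq1'
  have k5 := G.tpa _ _ h3'
  have k6 := G.btm _ _ h3'
  have k7 := G.a01
  have k8 := G.c01
  rw [R.val h1 h2]
  split_ifs with g1 g2
  · exact ind_true (by omega)
  · exact ind_true (by omega)
  · exact ind_true (by omega)

/-- the face function does not change across the closed labels off the plates `j` and `i` -/
lemma Rm.FC_F (R : Rm Λ w tp bt p p' q q' Su Sl) (G : Geo D tp bt Yl Yh a0 a1 c0 c1 p p' q q')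
    {e : ℤ × ℤ} (he : e ∈ Λ) (hw : e ∉ w)
    (hc : bt (tX e) ≤ tY e → tY e < tp (tX e) → (tX e < a0 ∨ (a1 ≤ tX e ∧ tX e < c0) ∨ c1 ≤ tX e)) :
    FC (Fc tp bt a0 c1 Su Sl) e := by
  intro f g hfg hfe
  obtain ⟨i, j, ⟨hor, hee⟩ | ⟨hor, hee⟩⟩ := faces_cases hfg hfe
  · have hX : tX e = i + j - 1 := by rw [hee]; unfold tX; simp only; omega
    have hY : tY e = j - i - 1 := by rw [hee]; unfold tY; simp only; omega
    have hadj : ∀ S : ℤ × ℤ → ZMod 2, FC S e → S (i, j) = S (i + 1, j) := by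
      intro S hS
      refine hS _ _ (by unfold IsUnit4; simp [Prod.ext_iff]) ?_
      rw [hee]; refine Prod.ext ?_ ?_ <;> simp only [Prod.mk_add_mk, Prod.mk_sub_mk] <;> ring
    suffices hs : Fc tp bt a0 c1 Su Sl (i, j) = Fc tp bt a0 c1 Su Sl (i + 1, j) by
      rcases hor with ⟨rfl, rfl⟩ | ⟨rfl, rfl⟩
      · exact hs
      · exact hs.symm
    have m1 := G.tpa (i + j - 2) (i + j - 1) (by omega)
    have m2 := G.tpa (i + j - 1) (i + j) (by omega)
    have m3 := G.btm (i + j - 2) (i + j - 1) (by omega)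
    have m4 := G.btm (i + j - 1) (i + j) (by omega)
    have m5 := G.lo (i + j - 1)
    have m6 := G.hi (i + j - 1)
    have m7 := G.lo (i + j)
    have m8 := G.hi (i + j)
    have m9 := G.YY
    have e1 : i + 1 + j - 1 = i + j := by ring
    have e2 : i + 1 + j - 2 = i + j - 1 := by ring
    rw [hX, hY] at hc
    rcases lt_or_ge (j - i - 1) (bt (i + j - 1)) with h1 | h1
    · unfold Fc
      simp only
      rw [e1, if_neg (by omega), if_pos (by omega), if_neg (by omega), if_pos (by omega)]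
      exact hadj Sl (R.FCl e he (by rw [hX, hY]; exact h1) hw)
    · rcases le_or_gt (tp (i + j - 1)) (j - i - 1) with h2 | h2
      · unfold Fc
        simp only
        rw [e1, if_pos (by omega), if_pos (by omega)]
        exact hadj Su (R.FCu e he (by rw [hX, hY]; exact h2) hw)
      · have n1 := G.tpa
        have n2 := G.btm
        rcases hc h1 h2 with h3 | h3 | h3
        · rw [R.val_left G (f := (i, j)) (by simp only; omega) (by simp only; omega)
              (by simp only; omega),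
            R.val_left G (f := (i + 1, j)) (by simp only; rw [e2]; omega)
              (by simp only; rw [e2]; omega) (by simp only; omega)]
        · have o1 := n1 _ _ h3.1
          have o2 := n2 _ _ h3.1
          rw [R.val_mid G (f := (i, j)) (by simp only; omega) (by simp only; omega)
              (by simp only; omega) (by simp only; omega) (by simp only; omega)
              (by simp only; omega),
            R.val_mid G (f := (i + 1, j)) (by simp only; rw [e2]; omega)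
              (by simp only; rw [e2]; omega) (by simp only; omega) (by simp only; omega)
              (by simp only; omega) (by simp only; omega)]
        · have o1 := n1 _ _ h3
          have o2 := n2 _ _ h3
          rw [R.val_right G (f := (i, j)) (by simp only; omega) (by simp only; omega)
              (by simp only; omega) (by simp only; omega) (by simp only; omega),
            R.val_right G (f := (i + 1, j)) (by simp only; rw [e2]; omega)
              (by simp only; rw [e2]; omega) (by simp only; omega)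
              (by simp only; omega) (by simp only; omega)]
  · have hX : tX e = i + j - 1 := by rw [hee]; unfold tX; simp only; omega
    have hY : tY e = j - i := by rw [hee]; unfold tY; simp only; omega
    have hadj : ∀ S : ℤ × ℤ → ZMod 2, FC S e → S (i, j) = S (i, j + 1) := by
      intro S hS
      refine hS _ _ (by unfold IsUnit4; simp [Prod.ext_iff]) ?_
      rw [hee]; refine Prod.ext ?_ ?_ <;> simp only [Prod.mk_add_mk, Prod.mk_sub_mk] <;> ring
    suffices hs : Fc tp bt a0 c1 Su Sl (i, j) = Fc tp bt a0 c1 Su Sl (i, j + 1) by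
      rcases hor with ⟨rfl, rfl⟩ | ⟨rfl, rfl⟩
      · exact hs
      · exact hs.symm
    have m1 := G.tpa (i + j - 2) (i + j - 1) (by omega)
    have m2 := G.tpa (i + j - 1) (i + j) (by omega)
    have m3 := G.btm (i + j - 2) (i + j - 1) (by omega)
    have m4 := G.btm (i + j - 1) (i + j) (by omega)
    have m5 := G.lo (i + j - 1)
    have m6 := G.hi (i + j - 1)
    have m7 := G.lo (i + j)
    have m8 := G.hi (i + j)
    have m9 := G.YY
    have e1 : i + (j + 1) - 1 = i + j := by ring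
    have e2 : i + (j + 1) - 2 = i + j - 1 := by ring
    rw [hX, hY] at hc
    rcases lt_or_ge (j - i) (bt (i + j - 1)) with h1 | h1
    · unfold Fc
      simp only
      rw [e1, if_neg (by omega), if_pos (by omega), if_neg (by omega), if_pos (by omega)]
      exact hadj Sl (R.FCl e he (by rw [hX, hY]; exact h1) hw)
    · rcases le_or_gt (tp (i + j - 1)) (j - i) with h2 | h2
      · unfold Fc
        simp only
        rw [e1, if_pos (by omega), if_pos (by omega)]
        exact hadj Su (R.FCu e he (by rw [hX, hY]; exact h2) hw)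
      · have n1 := G.tpa
        have n2 := G.btm
        rcases hc h1 h2 with h3 | h3 | h3
        · rw [R.val_left G (f := (i, j)) (by simp only; omega) (by simp only; omega)
              (by simp only; omega),
            R.val_left G (f := (i, j + 1)) (by simp only; rw [e2]; omega)
              (by simp only; rw [e2]; omega) (by simp only; omega)]
        · have o1 := n1 _ _ h3.1
          have o2 := n2 _ _ h3.1
          rw [R.val_mid G (f := (i, j)) (by simp only; omega) (by simp only; omega)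
              (by simp only; omega) (by simp only; omega) (by simp only; omega)
              (by simp only; omega),
            R.val_mid G (f := (i, j + 1)) (by simp only; rw [e2]; omega)
              (by simp only; rw [e2]; omega) (by simp only; omega) (by simp only; omega)
              (by simp only; omega) (by simp only; omega)]
        · have o1 := n1 _ _ h3
          have o2 := n2 _ _ h3
          rw [R.val_right G (f := (i, j)) (by simp only; omega) (by simp only; omega)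
              (by simp only; omega) (by simp only; omega) (by simp only; omega),
            R.val_right G (f := (i, j + 1)) (by simp only; rw [e2]; omega)
              (by simp only; rw [e2]; omega) (by simp only; omega)
              (by simp only; omega) (by simp only; omega)]

end Pool.Agent.H1.W
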