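import Mathlib
import Pool.Agent.H1.W.Chord

set_option autoImplicit false
open Finset

/-! # One exit across the chord: the upper half of plate `i` is closed

`KU tp kb c0 c1` : columns `[c0,c1)`, rows `kb ≤ y < tp x`. -/

namespace Pool.Agent.H1.W

open Pool.Agent.H75.Perc Pool.Agent.H75.TwoArm Pool.Agent.H60.Q1 Pool.Agent.H13.W Pool.Agent.H99.W

/-- the four corners round the vertex `(m,n)`: left, down, up, right side -/
lemma corner_cases (c : ℤ × ℤ) : ∃ m n : ℤ,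
    (c = (2 * m, 2 * n) ∧ lab c = (2 * m, 2 * n - 1) ∧ plab c = (2 * m - 1, 2 * n) ∧
      vx c = (m, n) ∧ fi c = (m, n)) ∨
    (c = (2 * m + 1, 2 * n) ∧ lab c = (2 * m + 1, 2 * n) ∧ plab c = (2 * m, 2 * n - 1) ∧
      vx c = (m, n) ∧ fi c = (m + 1, n)) ∨
    (c = (2 * m, 2 * n + 1) ∧ lab c = (2 * m - 1, 2 * n) ∧ plab c = (2 * m, 2 * n + 1) ∧
      vx c = (m, n) ∧ fi c = (m, n + 1)) ∨
    (c = (2 * m + 1, 2 * n + 1) ∧ lab c = (2 * m, 2 * n + 1) ∧ plab c = (2 * m + 1, 2 * n) ∧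
      vx c = (m, n) ∧ fi c = (m + 1, n + 1)) := by
  obtain ⟨a, b⟩ := c
  have h2 : ∀ x : ℤ, x % 2 = 0 → ∃ y, x = 2 * y := fun x hx => ⟨x / 2, by omega⟩
  have h3 : ∀ x : ℤ, x % 2 = 1 → ∃ y, x = 2 * y + 1 := fun x hx => ⟨x / 2, by omega⟩
  have k1 : ∀ x : ℤ, (2 * x) % 2 = 0 := fun x => by omega
  have k2 : ∀ x : ℤ, (2 * x + 1) % 2 = 1 := fun x => by omega
  have k3 : ∀ x : ℤ, (2 * x) / 2 = x := fun x => by omega
  have k4 : ∀ x : ℤ, (2 * x + 1) / 2 = x := fun x => by omega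
  have k5 : ∀ x : ℤ, (2 * x + 1 + 1) / 2 = x + 1 := fun x => by omega
  rcases Int.emod_two_eq_zero_or_one a with ha | ha <;>
    rcases Int.emod_two_eq_zero_or_one b with hb | hb
  · obtain ⟨m, rfl⟩ := h2 a ha
    obtain ⟨n, rfl⟩ := h2 b hb
    refine ⟨m, n, Or.inl ?_⟩
    simp [lab, plab, vx, fi, k1, k3, k4]
  · obtain ⟨m, rfl⟩ := h2 a ha
    obtain ⟨n, rfl⟩ := h3 b hb
    refine ⟨m, n, Or.inr (Or.inr (Or.inl ?_))⟩
    simp [lab, plab, vx, fi, k1, k2, k3, k4, k5]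
  · obtain ⟨m, rfl⟩ := h3 a ha
    obtain ⟨n, rfl⟩ := h2 b hb
    refine ⟨m, n, Or.inr (Or.inl ?_)⟩
    simp [lab, plab, vx, fi, k1, k2, k3, k4, k5]
  · obtain ⟨m, rfl⟩ := h3 a ha
    obtain ⟨n, rfl⟩ := h3 b hb
    refine ⟨m, n, Or.inr (Or.inr (Or.inr ?_))⟩
    simp [lab, plab, vx, fi, k1, k2, k3, k4, k5]

/-- tiles round the vertex `(m,n)` -/
lemma tXY_NW (m n : ℤ) : tX (2 * m - 1, 2 * n) = m + n - 1 ∧ tY (2 * m - 1, 2 * n) = n - m := by
  unfold tX tY; simp only; omega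
lemma tXY_SW (m n : ℤ) : tX (2 * m, 2 * n - 1) = m + n - 1 ∧ tY (2 * m, 2 * n - 1) = n - m - 1 := by
  unfold tX tY; simp only; omega
lemma tXY_SE (m n : ℤ) : tX (2 * m + 1, 2 * n) = m + n ∧ tY (2 * m + 1, 2 * n) = n - m - 1 := by
  unfold tX tY; simp only; omega
lemma tXY_NE (m n : ℤ) : tX (2 * m, 2 * n + 1) = m + n ∧ tY (2 * m, 2 * n + 1) = n - m := by
  unfold tX tY; simp only; omega

variable {Λ D : Set (ℤ × ℤ)} {w : Finset (ℤ × ℤ)} {tp bt : ℤ → ℤ} {Yl Yh kb a0 a1 c0 c1 : ℤ}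
  {p p' q q' : ℤ × ℤ} {Su Sl : ℤ × ℤ → ZMod 2}

/-- an upper half plate: columns `[c0,c1)`, rows `kb ≤ y < tp x` -/
def KU (tp : ℤ → ℤ) (kb c0 c1 : ℤ) : Set (ℤ × ℤ) :=
  {e | (e.1 + e.2) % 2 = 1 ∧ c0 ≤ tX e ∧ tX e < c1 ∧ kb ≤ tY e ∧ tY e < tp (tX e)}

/-- the row below the half plate is deleted -/
structure Cut (D : Set (ℤ × ℤ)) (Yl Yh kb c0 c1 : ℤ) : Prop where
  k1 : Yl < kb
  k2 : kb ≤ Yh
  del : ∀ e : ℤ × ℤ, (e.1 + e.2) % 2 = 1 → tY e = kb - 1 → c0 ≤ tX e → tX e < c1 → e ∈ D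

/-- a bank vertex is determined by its first coordinate -/
lemma uniq_bank (ht : ∀ x y, x ≤ y → tp y ≤ tp x) {r : ℤ × ℤ} {n : ℤ}
    (b1 : tp (r.1 + r.2) ≤ r.2 - r.1) (b2 : r.2 - r.1 ≤ tp (r.1 + r.2 - 1))
    (h1 : tp (r.1 + n) ≤ n - r.1) (h2 : n - r.1 ≤ tp (r.1 + n - 1)) : n = r.2 := by
  rcases lt_trichotomy n r.2 with h | h | h
  · have := ht (r.1 + n) (r.1 + r.2 - 1) (by omega)
    omega
  · exact h
  · have := ht (r.1 + r.2) (r.1 + n - 1) (by omega)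
    omega

lemma mem_KU_iff {e : ℤ × ℤ} (ho : (e.1 + e.2) % 2 = 1) {x y : ℤ} (hx : tX e = x)
    (hy : tY e = y) : e ∈ KU tp kb c0 c1 ↔ c0 ≤ x ∧ x < c1 ∧ kb ≤ y ∧ y < tp x := by
  subst hx; subst hy
  exact ⟨fun h => h.2, fun h => ⟨ho, h⟩⟩

lemma KU_NW {m n : ℤ} : ((2 * m - 1, 2 * n) : ℤ × ℤ) ∈ KU tp kb c0 c1 ↔
    c0 ≤ m + n - 1 ∧ m + n - 1 < c1 ∧ kb ≤ n - m ∧ n - m < tp (m + n - 1) :=
  mem_KU_iff (by simp only; omega) (tXY_NW m n).1 (tXY_NW m n).2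
lemma KU_SW {m n : ℤ} : ((2 * m, 2 * n - 1) : ℤ × ℤ) ∈ KU tp kb c0 c1 ↔
    c0 ≤ m + n - 1 ∧ m + n - 1 < c1 ∧ kb ≤ n - m - 1 ∧ n - m - 1 < tp (m + n - 1) :=
  mem_KU_iff (by simp only; omega) (tXY_SW m n).1 (tXY_SW m n).2
lemma KU_SE {m n : ℤ} : ((2 * m + 1, 2 * n) : ℤ × ℤ) ∈ KU tp kb c0 c1 ↔
    c0 ≤ m + n ∧ m + n < c1 ∧ kb ≤ n - m - 1 ∧ n - m - 1 < tp (m + n) :=
  mem_KU_iff (by simp only; omega) (tXY_SE m n).1 (tXY_SE m n).2
lemma KU_NE {m n : ℤ} : ((2 * m, 2 * n + 1) : ℤ × ℤ) ∈ KU tp kb c0 c1 ↔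
    c0 ≤ m + n ∧ m + n < c1 ∧ kb ≤ n - m ∧ n - m < tp (m + n) :=
  mem_KU_iff (by simp only; omega) (tXY_NE m n).1 (tXY_NE m n).2

lemma Cut.dSW (C : Cut D Yl Yh kb c0 c1) {m n : ℤ} (g1 : n - m - 1 = kb - 1)
    (g2 : c0 ≤ m + n - 1) (g3 : m + n - 1 < c1) : ((2 * m, 2 * n - 1) : ℤ × ℤ) ∈ D :=
  C.del _ (by simp only; omega) (by rw [(tXY_SW m n).2]; exact g1) (by rw [(tXY_SW m n).1]; exact g2)
      (by rw [(tXY_SW m n).1]; exact g3)
lemma Cut.dSE (C : Cut D Yl Yh kb c0 c1) {m n : ℤ} (g1 : n - m - 1 = kb - 1)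
    (g2 : c0 ≤ m + n) (g3 : m + n < c1) : ((2 * m + 1, 2 * n) : ℤ × ℤ) ∈ D :=
  C.del _ (by simp only; omega) (by rw [(tXY_SE m n).2]; exact g1) (by rw [(tXY_SE m n).1]; exact g2)
      (by rw [(tXY_SE m n).1]; exact g3)

/-- no deleted tiles in the rows of a bank vertex -/
lemma Geo.nD (G : Geo D tp bt Yl Yh a0 a1 c0 c1 p p' q q') {e : ℤ × ℤ} (ho : (e.1 + e.2) % 2 = 1)
    {y : ℤ} (hy : tY e = y) (h : Yh ≤ y) : e ∉ D := fun hD => by
  have := (G.Drow e hD ho).2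
  omega

open Classical in
/-- the exit at the right foot -/
noncomputable def bU (tp : ℤ → ℤ) (kb c0 c1 : ℤ) (p' : ℤ × ℤ) : ℤ × ℤ :=
  if (2 * p'.1 + 1, 2 * p'.2) ∈ KU tp kb c0 c1 then (2 * p'.1 + 1, 2 * p'.2 + 1)
  else (2 * p'.1 + 1, 2 * p'.2)

/-- the left feet are before plate `i` -/
lemma Geo.pk (G : Geo D tp bt Yl Yh a0 a1 c0 c1 p p' q q') {x : ℤ} (hx : c0 ≤ x) :
    2 * p.1 + 1 ≤ x - tp x := by
  have k1 := G.fp2
  have k9 := G.ac
  have := G.tpa a1 x (by omega)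
  omega

/-- left side of a vertex -/
lemma hK_up1 (R : Rm Λ w tp bt p p' q q' Su Sl) (G : Geo D tp bt Yl Yh a0 a1 c0 c1 p p' q q')
    (C : Cut D Yl Yh kb c0 c1) {m n : ℤ}
    (h : (((2 * m, 2 * n - 1) : ℤ × ℤ) ∈ KU tp kb c0 c1 ∧
        ((2 * m - 1, 2 * n) : ℤ × ℤ) ∉ KU tp kb c0 c1) ∨
      (((2 * m - 1, 2 * n) : ℤ × ℤ) ∈ KU tp kb c0 c1 ∧ ((2 * m, 2 * n - 1) : ℤ × ℤ) ∉ KU tp kb c0 c1 ∧
        ((2 * m, 2 * n - 1) : ℤ × ℤ) ∉ D)) :
    Fc tp bt a0 c1 Su Sl (m, n) = Vc tp bt a0 c1 p p' q q' (m, n) := by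
  rcases h with ⟨h1, h2⟩ | ⟨h1, h2, h3⟩
  · rw [KU_SW] at h1
    rw [KU_NW] at h2
    have hy : n - m = tp (m + n - 1) := by omega
    have g1 := G.tpa (m + n - 1) (m + n) (by omega)
    have g2 := G.tpa (m + n - 2) (m + n - 1) (by omega)
    have g3 := G.lo (m + n - 2)
    have g4 := G.pk h1.1
    have g5 := h1.2.2.1
    have g6 := C.k1
    clear h1 h2
    rw [R.val (by simp only; omega) (by simp only; omega)]
    unfold Vc
    simp only
    rw [if_pos (by omega), if_pos (by omega)]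
    exact ind_congr (by omega)
  · exfalso
    rw [KU_NW] at h1
    by_cases hy : n - m - 1 = kb - 1
    · exact h3 (C.dSW hy h1.1 h1.2.1)
    · rw [KU_SW] at h2
      omega

/-- right side of a vertex -/
lemma hK_up4 (R : Rm Λ w tp bt p p' q q' Su Sl) (G : Geo D tp bt Yl Yh a0 a1 c0 c1 p p' q q')
    (C : Cut D Yl Yh kb c0 c1) {m n : ℤ}
    (h : (((2 * m, 2 * n + 1) : ℤ × ℤ) ∈ KU tp kb c0 c1 ∧ ((2 * m + 1, 2 * n) : ℤ × ℤ) ∉ KU tp kb c0 c1 ∧
        ((2 * m + 1, 2 * n) : ℤ × ℤ) ∉ D) ∨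
      (((2 * m + 1, 2 * n) : ℤ × ℤ) ∈ KU tp kb c0 c1 ∧
        ((2 * m, 2 * n + 1) : ℤ × ℤ) ∉ KU tp kb c0 c1))
    (hb : ((2 * m + 1, 2 * n + 1) : ℤ × ℤ) ≠ bU tp kb c0 c1 p') :
    Fc tp bt a0 c1 Su Sl (m + 1, n + 1) = Vc tp bt a0 c1 p p' q q' (m, n) := by
  have f1 : m + 1 + (n + 1) - 1 = m + n + 1 := by ring
  have f2 : m + 1 + (n + 1) - 2 = m + n := by ring
  rcases h with ⟨h1, h2, h3⟩ | ⟨h1, h2⟩
  · exfalso
    rw [KU_NE] at h1
    by_cases hy : n - m - 1 = kb - 1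
    · exact h3 (C.dSE hy h1.1 h1.2.1)
    · rw [KU_SE] at h2
      omega
  · have h1' := h1
    rw [KU_SE] at h1
    rw [KU_NE] at h2
    have hy : n - m = tp (m + n) := by omega
    have g1 := G.tpa (m + n) (m + n + 1) (by omega)
    have g2 := G.tpa (m + n - 1) (m + n) (by omega)
    have g3 := G.lo (m + n)
    have g4 := G.pk h1.1
    have g5 := h1.2.2.1
    have g6 := C.k1
    have hne : m ≠ p'.1 := by
      intro g2
      subst g2
      have g3 := uniq_bank G.tpa (n := n) G.bp1' G.bp2' (by omega) (by omega)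
      subst g3
      apply hb
      unfold bU
      rw [if_pos h1']
    clear h1 h2 h1' hb
    rw [R.val (by simp only; rw [f2]; omega) (by simp only; rw [f2]; omega)]
    unfold Vc
    simp only
    rw [f1, if_pos (by omega), if_pos (by omega)]
    exact ind_congr (by omega)

/-- down side of a vertex -/
lemma hK_up2 (R : Rm Λ w tp bt p p' q q' Su Sl) (G : Geo D tp bt Yl Yh a0 a1 c0 c1 p p' q q')
    (C : Cut D Yl Yh kb c0 c1) {m n : ℤ}
    (h : (((2 * m + 1, 2 * n) : ℤ × ℤ) ∈ KU tp kb c0 c1 ∧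
        ((2 * m, 2 * n - 1) : ℤ × ℤ) ∉ KU tp kb c0 c1) ∨
      (((2 * m, 2 * n - 1) : ℤ × ℤ) ∈ KU tp kb c0 c1 ∧
        ((2 * m + 1, 2 * n) : ℤ × ℤ) ∉ KU tp kb c0 c1))
    (hb : ((2 * m + 1, 2 * n) : ℤ × ℤ) ≠ bU tp kb c0 c1 p') :
    Fc tp bt a0 c1 Su Sl (m + 1, n) = Vc tp bt a0 c1 p p' q q' (m, n) := by
  have f1 : m + 1 + n - 1 = m + n := by ring
  have f2 : m + 1 + n - 2 = m + n - 1 := by ring
  have k7 := G.a01
  have k8 := G.c01
  have k9 := G.ac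
  have k5 := C.k1
  have mm := G.tpa (m + n - 1) (m + n) (by omega)
  rcases h with ⟨h1, h2⟩ | ⟨h1, h2⟩
  · rw [KU_SE] at h1
    rw [KU_SW] at h2
    have hx : m + n = c0 := by omega
    obtain ⟨h11, h12, h13, h14⟩ := h1
    clear h2 hb h11 h12
    have g3 := G.lo (m + n - 1)
    have g6 := G.lo (m + n)
    have g4 := G.fp1'
    have g7 := G.pk le_rfl
    rw [R.val (by simp only; rw [f2]; omega) (by simp only; rw [f2]; omega)]
    unfold Vc
    simp only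
    rw [f1, if_neg (by omega), if_neg (by omega), ind_true (by omega)]
    rw [hx] at h14 g6 ⊢
    split_ifs with g1 g2
    · rw [ind_true (by omega)]
    · exfalso; omega
    · rfl
  · rw [KU_SW] at h1
    have hbu : m = p'.1 → n = p'.2 → False := by
      rintro rfl rfl
      apply hb
      unfold bU
      rw [if_neg h2]
    rw [KU_SE] at h2
    have g4 := G.pk h1.1
    obtain ⟨h11, h12, h13, h14⟩ := h1
    have g3 := G.lo (m + n - 1)
    have g6 := G.lo (m + n)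
    rcases le_or_gt (tp (m + n)) (n - m - 1) with g1 | g1
    · have hne : m ≠ p'.1 := by
        intro g2
        have g5 : n = p'.2 := by
          subst g2
          exact uniq_bank G.tpa (n := n) G.bp1' G.bp2' (by omega) (by omega)
        exact hbu g2 g5
      clear h2 hb hbu
      rw [R.val (by simp only; rw [f2]; omega) (by simp only; rw [f2]; omega)]
      unfold Vc
      simp only
      rw [f1, if_pos (by omega), if_pos (by omega)]
      exact ind_congr (by omega)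
    · have hx : m + n = c1 := by omega
      have g7 := G.fp2'
      have hne : tp (m + n) ≤ n - m → m ≠ p'.1 := by
        intro g9 g2
        have g5 : n = p'.2 := by
          subst g2
          exact uniq_bank G.tpa (n := n) G.bp1' G.bp2' g9 (by omega)
        exact hbu g2 g5
      clear h2 hb hbu
      rw [R.val (by simp only; rw [f2]; omega) (by simp only; rw [f2]; omega)]
      unfold Vc
      simp only
      rw [f1, if_neg (by omega), if_neg (by omega), ind_false (by omega)]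
      split_ifs with g2 g8
      · have := hne g2
        rw [hx] at g1 g2
        rw [ind_false (by omega)]
      · exfalso; omega
      · rfl

/-- up side of a vertex -/
lemma hK_up3 (R : Rm Λ w tp bt p p' q q' Su Sl) (G : Geo D tp bt Yl Yh a0 a1 c0 c1 p p' q q')
    (C : Cut D Yl Yh kb c0 c1) {m n : ℤ}
    (h : (((2 * m - 1, 2 * n) : ℤ × ℤ) ∈ KU tp kb c0 c1 ∧
        ((2 * m, 2 * n + 1) : ℤ × ℤ) ∉ KU tp kb c0 c1) ∨
      (((2 * m, 2 * n + 1) : ℤ × ℤ) ∈ KU tp kb c0 c1 ∧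
        ((2 * m - 1, 2 * n) : ℤ × ℤ) ∉ KU tp kb c0 c1)) :
    Fc tp bt a0 c1 Su Sl (m, n + 1) = Vc tp bt a0 c1 p p' q q' (m, n) := by
  have f1 : m + (n + 1) - 1 = m + n := by ring
  have f2 : m + (n + 1) - 2 = m + n - 1 := by ring
  have k7 := G.a01
  have k8 := G.c01
  have k9 := G.ac
  have k5 := C.k1
  have mm := G.tpa (m + n - 1) (m + n) (by omega)
  have g3 := G.lo (m + n - 1)
  have g6 := G.lo (m + n)
  rcases h with ⟨h1, h2⟩ | ⟨h1, h2⟩
  · rw [KU_NW] at h1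
    rw [KU_NE] at h2
    have g4 := G.pk h1.1
    obtain ⟨h11, h12, h13, h14⟩ := h1
    rcases le_or_gt (tp (m + n)) (n - m) with g1 | g1
    · clear h2
      rw [R.val (by simp only; rw [f2]; omega) (by simp only; rw [f2]; omega)]
      unfold Vc
      simp only
      rw [f1, if_pos (by omega), if_pos (by omega)]
      exact ind_congr (by omega)
    · have hx : m + n = c1 := by omega
      have g7 := G.fp2'
      clear h2
      rw [R.val (by simp only; rw [f2]; omega) (by simp only; rw [f2]; omega)]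
      unfold Vc
      simp only
      rw [f1, if_neg (by omega : ¬ tp (m + n) ≤ n - m), if_neg (by omega : ¬ n - m ≤ bt (m + n)),
        ind_false (by omega : ¬ (a0 < m + n ∧ m + n < c1))]
      rw [hx] at g1 g6 ⊢
      split_ifs with g2 g8
      · rw [ind_false (by omega)]
      · exfalso; omega
      · rfl
  · rw [KU_NE] at h1
    rw [KU_NW] at h2
    have hx : m + n = c0 := by omega
    obtain ⟨h11, h12, h13, h14⟩ := h1
    have g4 := G.fp1'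
    have g5 := G.pk le_rfl
    clear h2
    rw [R.val (by simp only; rw [f2]; omega) (by simp only; rw [f2]; omega)]
    unfold Vc
    simp only
    rw [f1, if_neg (by omega : ¬ tp (m + n) ≤ n - m), if_neg (by omega : ¬ n - m ≤ bt (m + n)),
      ind_true (by omega : (a0 < m + n ∧ m + n < c1))]
    rw [hx] at h14 g6 ⊢
    split_ifs with g2 g8
    · rw [ind_true (by omega)]
    · exfalso; omega
    · rfl

/-- consistency at the interface of the closed upper half of plate `i` -/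
theorem hK_up (R : Rm Λ w tp bt p p' q q' Su Sl) (G : Geo D tp bt Yl Yh a0 a1 c0 c1 p p' q q')
    (C : Cut D Yl Yh kb c0 c1) (c : ℤ × ℤ)
    (h : (lab c ∈ KU tp kb c0 c1 ∧ plab c ∉ KU tp kb c0 c1 ∧ plab c ∉ D) ∨
      (plab c ∈ KU tp kb c0 c1 ∧ lab c ∉ KU tp kb c0 c1 ∧ lab c ∉ D)) (hcb : c ≠ bU tp kb c0 c1 p') :
    Fc tp bt a0 c1 Su Sl (fi c) = Vc tp bt a0 c1 p p' q q' (vx c) := by
  obtain ⟨m, n, hc⟩ := corner_cases c
  rcases hc with ⟨e1, e2, e3, e4, e5⟩ | ⟨e1, e2, e3, e4, e5⟩ | ⟨e1, e2, e3, e4, e5⟩ |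
    ⟨e1, e2, e3, e4, e5⟩
  · rw [e2, e3] at h
    rw [e4, e5]
    exact hK_up1 R G C (h.imp (fun g => ⟨g.1, g.2.1⟩) id)
  · rw [e2, e3] at h
    rw [e4, e5]
    exact hK_up2 R G C (h.imp (fun g => ⟨g.1, g.2.1⟩) (fun g => ⟨g.1, g.2.1⟩)) (e1 ▸ hcb)
  · rw [e2, e3] at h
    rw [e4, e5]
    exact hK_up3 R G C (h.imp (fun g => ⟨g.1, g.2.1⟩) (fun g => ⟨g.1, g.2.1⟩))
  · rw [e2, e3] at h
    rw [e4, e5]
    exact hK_up4 R G C (h.imp id (fun g => ⟨g.1, g.2.1⟩)) (e1 ▸ hcb)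

/-- the four corners round a vertex -/
lemma corner_oo (m n : ℤ) : lab (2 * m + 1, 2 * n + 1) = (2 * m, 2 * n + 1) ∧
    plab (2 * m + 1, 2 * n + 1) = (2 * m + 1, 2 * n) ∧ vx (2 * m + 1, 2 * n + 1) = (m, n) ∧
    fi (2 * m + 1, 2 * n + 1) = (m + 1, n + 1) := by
  have k2 : ∀ x : ℤ, (2 * x + 1) % 2 = 1 := fun x => by omega
  have k4 : ∀ x : ℤ, (2 * x + 1) / 2 = x := fun x => by omega
  have k5 : ∀ x : ℤ, (2 * x + 1 + 1) / 2 = x + 1 := fun x => by omega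
  simp [lab, plab, vx, fi, k2, k4, k5]

lemma corner_ee (m n : ℤ) : lab (2 * m, 2 * n) = (2 * m, 2 * n - 1) ∧
    plab (2 * m, 2 * n) = (2 * m - 1, 2 * n) ∧ vx (2 * m, 2 * n) = (m, n) ∧
    fi (2 * m, 2 * n) = (m, n) := by
  have k1 : ∀ x : ℤ, (2 * x) % 2 = 0 := fun x => by omega
  have k3 : ∀ x : ℤ, (2 * x) / 2 = x := fun x => by omega
  have k4 : ∀ x : ℤ, (2 * x + 1) / 2 = x := fun x => by omega
  simp [lab, plab, vx, fi, k1, k3, k4]

lemma corner_oe (m n : ℤ) : lab (2 * m + 1, 2 * n) = (2 * m + 1, 2 * n) ∧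
    plab (2 * m + 1, 2 * n) = (2 * m, 2 * n - 1) ∧ vx (2 * m + 1, 2 * n) = (m, n) ∧
    fi (2 * m + 1, 2 * n) = (m + 1, n) := by
  have k1 : ∀ x : ℤ, (2 * x) % 2 = 0 := fun x => by omega
  have k2 : ∀ x : ℤ, (2 * x + 1) % 2 = 1 := fun x => by omega
  have k3 : ∀ x : ℤ, (2 * x) / 2 = x := fun x => by omega
  have k4 : ∀ x : ℤ, (2 * x + 1) / 2 = x := fun x => by omega
  have k5 : ∀ x : ℤ, (2 * x + 1 + 1) / 2 = x + 1 := fun x => by omega
  simp [lab, plab, vx, fi, k1, k2, k3, k4, k5]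

lemma corner_eo (m n : ℤ) : lab (2 * m, 2 * n + 1) = (2 * m - 1, 2 * n) ∧
    plab (2 * m, 2 * n + 1) = (2 * m, 2 * n + 1) ∧ vx (2 * m, 2 * n + 1) = (m, n) ∧
    fi (2 * m, 2 * n + 1) = (m, n + 1) := by
  have k1 : ∀ x : ℤ, (2 * x) % 2 = 0 := fun x => by omega
  have k2 : ∀ x : ℤ, (2 * x + 1) % 2 = 1 := fun x => by omega
  have k3 : ∀ x : ℤ, (2 * x) / 2 = x := fun x => by omega
  have k4 : ∀ x : ℤ, (2 * x + 1) / 2 = x := fun x => by omega
  have k5 : ∀ x : ℤ, (2 * x + 1 + 1) / 2 = x + 1 := fun x => by omega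
  simp [lab, plab, vx, fi, k1, k2, k3, k4, k5]

/-- the value at the exit -/
lemma val_bU {K : Set (ℤ × ℤ)} (R : Rm Λ w tp bt p p' q q' Su Sl)
    (G : Geo D tp bt Yl Yh a0 a1 c0 c1 p p' q q') (C : Cut D Yl Yh kb c0 c1)
    (hK : ∀ e ∈ K, e ∈ KU tp kb c0 c1 ∨ tY e < Yh) :
    val D K (Fc tp bt a0 c1 Su Sl) (Vc tp bt a0 c1 p p' q q') (bU tp kb c0 c1 p') = 0 := by
  obtain ⟨m, n⟩ := p'
  have b1 := G.bp1'
  have b2 := G.bp2'
  have k1 := G.fp1'
  have g0 := G.hi (m + n)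
  have c1' := C.k1
  have c2' := C.k2
  simp only at b1 b2 k1
  unfold bU
  simp only
  by_cases h : ((2 * m + 1, 2 * n) : ℤ × ℤ) ∈ KU tp kb c0 c1
  · rw [if_pos h]
    rw [KU_SE] at h
    obtain ⟨e2, e3, e4, e5⟩ := corner_oo m n
    rw [val_F (e := (2 * m, 2 * n + 1)) (Or.inl e2.symm) (fun g => by
        rcases hK _ g with g' | g'
        · rw [KU_NE] at g'; omega
        · rw [(tXY_NE m n).2] at g'; omega)
      (G.nD (by simp only; omega) (tXY_NE m n).2 (by omega)), e5]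
    have f1 : m + 1 + (n + 1) - 1 = m + n + 1 := by ring
    have f2 : m + 1 + (n + 1) - 2 = m + n := by ring
    have g1 := G.tpa (m + n) (m + n + 1) (by omega)
    have g3 := G.lo (m + n)
    rw [R.val (by simp only; rw [f2]; omega) (by simp only; rw [f2]; omega)]
    simp only
    rw [f1, if_pos (by omega)]
    exact ind_false (by omega)
  · rw [if_neg h]
    have hh := h
    rw [KU_SE] at h
    obtain ⟨e2, e3, e4, e5⟩ := corner_oe m n
    rw [val_F (e := (2 * m + 1, 2 * n)) (Or.inl e2.symm) (fun g => by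
        rcases hK _ g with g' | g'
        · exact hh g'
        · rw [(tXY_SE m n).2] at g'; omega)
      (G.nD (by simp only; omega) (tXY_SE m n).2 (by omega)), e5]
    have f1 : m + 1 + n - 1 = m + n := by ring
    have f2 : m + 1 + n - 2 = m + n - 1 := by ring
    have g1 := G.tpa (m + n - 1) (m + n) (by omega)
    have g3 := G.lo (m + n - 1)
    have g4 := G.lo (m + n)
    rw [R.val (by simp only; rw [f2]; omega) (by simp only; rw [f2]; omega)]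
    simp only
    rw [f1]
    split_ifs with i1 i2
    · exact ind_false (by omega)
    · exfalso; omega
    · have hx : c0 ≤ m + n := by
        by_contra hlt
        have := G.tpa (m + n) c0 (by omega)
        omega
      exact ind_false (by omega)

end Pool.Agent.H1.W
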