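import Mathlib
import Pool.Agent.H1.W.ChordUp

set_option autoImplicit false
open Finset

/-! # Deleted tiles and the assembly of the block across a chord (Route W, D7b) -/

namespace Pool.Agent.H1.W

open Pool.Agent.H75.Perc Pool.Agent.H75.TwoArm Pool.Agent.H60.Q1 Pool.Agent.H13.W Pool.Agent.H99.W

variable {Λ D K : Set (ℤ × ℤ)} {w : Finset (ℤ × ℤ)} {tp bt : ℤ → ℤ} {Yl Yh kb a0 a1 c0 c1 : ℤ}
  {p p' q q' : ℤ × ℤ} {Su Sl : ℤ × ℤ → ZMod 2}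

/-- an odd label is of one of two types -/
lemma odd_cases {e : ℤ × ℤ} (he : (e.1 + e.2) % 2 = 1) :
    ∃ m n : ℤ, e = (2 * m, 2 * n + 1) ∨ e = (2 * m + 1, 2 * n) := by
  obtain ⟨a, b⟩ := e
  simp only at he
  rcases Int.emod_two_eq_zero_or_one a with ha | ha
  · exact ⟨a / 2, b / 2, Or.inl (by rw [Prod.mk.injEq]; omega)⟩
  · exact ⟨a / 2, b / 2, Or.inr (by rw [Prod.mk.injEq]; omega)⟩

/-- tile below -/
def tD (e : ℤ × ℤ) : ℤ × ℤ := (e.1 + 1, e.2 - 1)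
/-- tile above -/
def tU (e : ℤ × ℤ) : ℤ × ℤ := (e.1 - 1, e.2 + 1)

lemma Geo.Fin (G : Geo D tp bt Yl Yh a0 a1 c0 c1 p p' q q') {f : ℤ × ℤ} {x y : ℤ}
    (hx : f.1 + f.2 - 1 = x) (hy : f.2 - f.1 = y) (h1 : Yl ≤ y) (h2 : y ≤ Yh) :
    Fc tp bt a0 c1 Su Sl f = ind (a0 < x ∧ x < c1) := by
  have := G.lo x
  have := G.hi x
  unfold Fc
  rw [hx, hy, if_neg (by omega), if_neg (by omega)]

lemma Geo.Vin (G : Geo D tp bt Yl Yh a0 a1 c0 c1 p p' q q') {v : ℤ × ℤ} {x y : ℤ}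
    (hx : v.1 + v.2 = x) (hy : v.2 - v.1 = y) (h1 : Yl ≤ y) (h2 : y ≤ Yh) :
    Vc tp bt a0 c1 p p' q q' v = ind (a0 < x ∧ x < c1) := by
  have := G.lo x
  have := G.hi x
  unfold Vc
  rw [hx, hy, if_neg (by omega), if_neg (by omega)]

open Classical in
/-- the value of a side -/
lemma val_eq {F V : ℤ × ℤ → ZMod 2} {c e e' : ℤ × ℤ}
    (h : (lab c = e ∧ plab c = e') ∨ (lab c = e' ∧ plab c = e)) (heD : e ∈ D) :
    val D K F V c = if e' ∈ K ∨ e' ∈ D then V (vx c) else F (fi c) := by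
  unfold val
  rcases h with ⟨h1, h2⟩ | ⟨h1, h2⟩
  · rw [h1, h2]
    by_cases hh : e' ∈ K ∨ e' ∈ D
    · rw [if_pos hh, if_pos ⟨Or.inr heD, hh⟩]
    · rw [if_neg hh, if_neg (fun g => hh g.2)]
  · rw [h1, h2]
    by_cases hh : e' ∈ K ∨ e' ∈ D
    · rw [if_pos hh, if_pos ⟨hh, Or.inr heD⟩]
    · rw [if_neg hh, if_neg (fun g => hh g.1)]

/-- the deleted tiles preserve the value -/
lemma hD_gen (G : Geo D tp bt Yl Yh a0 a1 c0 c1 p p' q q') {e : ℤ × ℤ} (heD : e ∈ D)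
    (ho : (e.1 + e.2) % 2 = 1)
    (hx : tX e = a0 ∨ tX e = c1 - 1 → ((tD e ∈ K ∨ tD e ∈ D) ↔ ¬ (tU e ∈ K ∨ tU e ∈ D))) :
    val D K (Fc tp bt a0 c1 Su Sl) (Vc tp bt a0 c1 p p' q q') (eS e) =
      val D K (Fc tp bt a0 c1 Su Sl) (Vc tp bt a0 c1 p p' q q') (eN e) := by
  have k7 := G.a01
  have k8 := G.c01
  have k9 := G.ac
  obtain ⟨h1, h2⟩ := G.Drow _ heD ho
  have key : ∀ {x : ℤ} {P Q : Prop}, (x = a0 ∨ x = c1 - 1 → (P ↔ ¬ Q)) →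
      (ind (a0 < x ∧ x < c1) = ind (a0 < x + 1 ∧ x + 1 < c1)) ∨ (P ↔ ¬ Q) := by
    intro x P Q h
    by_cases hh : x = a0 ∨ x = c1 - 1
    · exact Or.inr (h hh)
    · left
      exact ind_congr (by omega)
  obtain ⟨m, n, rfl | rfl⟩ := odd_cases ho
  · rw [(tXY_NE m n).2] at h1 h2
    rw [(tXY_NE m n).1] at hx
    have hS : eS ((2 * m, 2 * n + 1) : ℤ × ℤ) = (2 * m + 1, 2 * n + 1) := rfl
    have hN : eN ((2 * m, 2 * n + 1) : ℤ × ℤ) = (2 * m, 2 * (n + 1)) := by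
      unfold eN; rw [Prod.mk.injEq]; exact ⟨rfl, by ring⟩
    have hd : tD ((2 * m, 2 * n + 1) : ℤ × ℤ) = (2 * m + 1, 2 * n) := by
      unfold tD; rw [Prod.mk.injEq]; exact ⟨rfl, by ring⟩
    have hu : tU ((2 * m, 2 * n + 1) : ℤ × ℤ) = (2 * m - 1, 2 * (n + 1)) := by
      unfold tU; rw [Prod.mk.injEq]; exact ⟨rfl, by ring⟩
    obtain ⟨a1', a2', a3', a4'⟩ := corner_oo m n
    obtain ⟨b1', b2', b3', b4'⟩ := corner_ee m (n + 1)
    have b1'' : lab (2 * m, 2 * (n + 1)) = (2 * m, 2 * n + 1) := by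
      rw [b1', Prod.mk.injEq]; exact ⟨rfl, by ring⟩
    rw [hS, hN, val_eq (Or.inl ⟨a1', a2'.trans hd.symm⟩) heD,
      val_eq (Or.inl ⟨b1'', b2'.trans hu.symm⟩) heD, a3', a4', b3', b4',
      G.Fin (f := (m + 1, n + 1)) (x := m + n + 1) (y := n - m) (by simp only; ring)
        (by simp only; ring) h1 h2.le,
      G.Vin (v := (m, n)) (x := m + n) (y := n - m) rfl rfl h1 h2.le,
      G.Fin (f := (m, n + 1)) (x := m + n) (y := n - m + 1) (by simp only; ring)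
        (by simp only; ring) (by omega) (by omega),
      G.Vin (v := (m, n + 1)) (x := m + n + 1) (y := n - m + 1) (by simp only; ring)
        (by simp only; ring) (by omega) (by omega)]
    rcases key hx with h | h
    · rw [h]; split_ifs <;> rfl
    · by_cases g : tD ((2 * m, 2 * n + 1) : ℤ × ℤ) ∈ K ∨ tD ((2 * m, 2 * n + 1) : ℤ × ℤ) ∈ D
      · rw [if_pos g, if_neg (h.1 g)]
      · have g' := not_not.1 (mt h.2 g)
        rw [if_neg g, if_pos g']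
  · rw [(tXY_SE m n).2] at h1 h2
    rw [(tXY_SE m n).1] at hx
    have hS : eS ((2 * m + 1, 2 * n) : ℤ × ℤ) = (2 * (m + 1), 2 * n) := by
      unfold eS; rw [Prod.mk.injEq]; exact ⟨by ring, rfl⟩
    have hN : eN ((2 * m + 1, 2 * n) : ℤ × ℤ) = (2 * m + 1, 2 * n + 1) := rfl
    have hd : tD ((2 * m + 1, 2 * n) : ℤ × ℤ) = (2 * (m + 1), 2 * n - 1) := by
      unfold tD; rw [Prod.mk.injEq]; exact ⟨by ring, rfl⟩
    have hu : tU ((2 * m + 1, 2 * n) : ℤ × ℤ) = (2 * m, 2 * n + 1) := by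
      unfold tU; rw [Prod.mk.injEq]; exact ⟨by ring, rfl⟩
    obtain ⟨a1', a2', a3', a4'⟩ := corner_oo m n
    obtain ⟨b1', b2', b3', b4'⟩ := corner_ee (m + 1) n
    have b2'' : plab (2 * (m + 1), 2 * n) = (2 * m + 1, 2 * n) := by
      rw [b2', Prod.mk.injEq]; exact ⟨by ring, rfl⟩
    rw [hS, hN, val_eq (Or.inr ⟨b1'.trans hd.symm, b2''⟩) heD,
      val_eq (Or.inr ⟨a1'.trans hu.symm, a2'⟩) heD, a3', a4', b3', b4',
      G.Fin (f := (m + 1, n)) (x := m + n) (y := n - m - 1) (by simp only; ring)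
        (by simp only; ring) h1 h2.le,
      G.Vin (v := (m + 1, n)) (x := m + n + 1) (y := n - m - 1) (by simp only; ring)
        (by simp only; ring) h1 h2.le,
      G.Fin (f := (m + 1, n + 1)) (x := m + n + 1) (y := n - m) (by simp only; ring)
        (by simp only; ring) (by omega) (by omega),
      G.Vin (v := (m, n)) (x := m + n) (y := n - m) rfl rfl (by omega) (by omega)]
    rcases key hx with h | h
    · rw [h]; split_ifs <;> rfl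
    · by_cases g : tD ((2 * m + 1, 2 * n) : ℤ × ℤ) ∈ K ∨ tD ((2 * m + 1, 2 * n) : ℤ × ℤ) ∈ D
      · rw [if_pos g, if_neg (h.1 g)]
      · have g' := not_not.1 (mt h.2 g)
        rw [if_neg g, if_pos g']

/-- the plates `j` and `i` : all chord labels in their columns are open, deleted or in `K`; in the two
extreme columns every deleted tile has exactly one neighbour (below / above) in `K` or deleted -/
structure Pl (Λ D K : Set (ℤ × ℤ)) (w : Finset (ℤ × ℤ)) (tp bt : ℤ → ℤ) (a0 a1 c0 c1 : ℤ) : Prop where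
  Kw : ∀ e ∈ K, e ∉ w
  pl : ∀ e ∈ Λ, bt (tX e) ≤ tY e → tY e < tp (tX e) →
    ((a0 ≤ tX e ∧ tX e < a1) ∨ (c0 ≤ tX e ∧ tX e < c1)) → e ∈ w ∨ e ∈ D ∨ e ∈ K
  ext : ∀ e ∈ D, (e.1 + e.2) % 2 = 1 → (tX e = a0 ∨ tX e = c1 - 1) →
    ((tD e ∈ K ∨ tD e ∈ D) ↔ ¬ (tU e ∈ K ∨ tU e ∈ D))

/-- the enclosed set -/
noncomputable def encl (D K : Set (ℤ × ℤ)) (tp bt : ℤ → ℤ) (a0 c1 : ℤ) (Su Sl : ℤ × ℤ → ZMod 2)
    (p p' q q' : ℤ × ℤ) : Set (ℤ × ℤ) :=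
  {c | val D K (Fc tp bt a0 c1 Su Sl) (Vc tp bt a0 c1 p p' q q') c = 1}

/-- the label of a corner is odd -/
lemma lab_odd (c : ℤ × ℤ) : ((lab c).1 + (lab c).2) % 2 = 1 := by
  obtain ⟨m, n, hc⟩ := corner_cases c
  rcases hc with ⟨-, e2, -⟩ | ⟨-, e2, -⟩ | ⟨-, e2, -⟩ | ⟨-, e2, -⟩ <;> rw [e2] <;> simp only <;> omega

lemma plab_odd (c : ℤ × ℤ) : ((plab c).1 + (plab c).2) % 2 = 1 := by
  obtain ⟨m, n, hc⟩ := corner_cases c
  rcases hc with ⟨-, -, e2, -⟩ | ⟨-, -, e2, -⟩ | ⟨-, -, e2, -⟩ | ⟨-, -, e2, -⟩ <;> rw [e2] <;>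
    simp only <;> omega

/-- `K` is the closed half plate `K0` and closed slabs between two deleted rows of a plate -/
structure Ks (D K K0 : Set (ℤ × ℤ)) (Yl Yh : ℤ) : Prop where
  sub : ∀ e ∈ K0, e ∈ K
  slab : ∀ e ∈ K, e ∉ K0 → Yl ≤ tY e ∧ tY e < Yh ∧ (tD e ∈ K ∨ tD e ∈ D) ∧ (tU e ∈ K ∨ tU e ∈ D)

lemma Ks.refl : Ks D K K Yl Yh := ⟨fun _ h => h, fun _ h h' => absurd h h'⟩

/-- no exit at a slab -/
lemma hK_slab {K0 : Set (ℤ × ℤ)} (G : Geo D tp bt Yl Yh a0 a1 c0 c1 p p' q q') (H : Ks D K K0 Yl Yh)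
    (c : ℤ × ℤ)
    (h : (lab c ∈ K ∧ lab c ∉ K0 ∧ plab c ∉ K ∧ plab c ∉ D) ∨
      (plab c ∈ K ∧ plab c ∉ K0 ∧ lab c ∉ K ∧ lab c ∉ D)) :
    Fc tp bt a0 c1 Su Sl (fi c) = Vc tp bt a0 c1 p p' q q' (vx c) := by
  obtain ⟨m, n, hc⟩ := corner_cases c
  rcases hc with ⟨e1, e2, e3, e4, e5⟩ | ⟨e1, e2, e3, e4, e5⟩ | ⟨e1, e2, e3, e4, e5⟩ |
    ⟨e1, e2, e3, e4, e5⟩
  · exfalso
    rw [e2, e3] at h
    rcases h with ⟨h1, h2, h3, h4⟩ | ⟨h1, h2, h3, h4⟩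
    · obtain ⟨-, -, -, g⟩ := H.slab _ h1 h2
      have e : tU ((2 * m, 2 * n - 1) : ℤ × ℤ) = (2 * m - 1, 2 * n) := by
        unfold tU; rw [Prod.mk.injEq]; exact ⟨rfl, by ring⟩
      rw [e] at g
      exact g.elim h3 h4
    · obtain ⟨-, -, g, -⟩ := H.slab _ h1 h2
      have e : tD ((2 * m - 1, 2 * n) : ℤ × ℤ) = (2 * m, 2 * n - 1) := by
        unfold tD; rw [Prod.mk.injEq]; exact ⟨by ring, rfl⟩
      rw [e] at g
      exact g.elim h3 h4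
  · rw [e4, e5]
    have hrow : Yl ≤ n - m - 1 ∧ n - m - 1 < Yh := by
      rw [e2, e3] at h
      rcases h with ⟨h1, h2, -⟩ | ⟨h1, h2, -⟩
      · obtain ⟨g1, g2, -⟩ := H.slab _ h1 h2
        rw [(tXY_SE m n).2] at g1 g2
        exact ⟨g1, g2⟩
      · obtain ⟨g1, g2, -⟩ := H.slab _ h1 h2
        rw [(tXY_SW m n).2] at g1 g2
        exact ⟨g1, g2⟩
    rw [G.Fin (f := (m + 1, n)) (x := m + n) (y := n - m - 1) (by simp only; ring)
        (by simp only; ring) hrow.1 hrow.2.le,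
      G.Vin (v := (m, n)) (x := m + n) (y := n - m) rfl rfl (by omega) (by omega)]
  · rw [e4, e5]
    have hrow : Yl ≤ n - m ∧ n - m < Yh := by
      rw [e2, e3] at h
      rcases h with ⟨h1, h2, -⟩ | ⟨h1, h2, -⟩
      · obtain ⟨g1, g2, -⟩ := H.slab _ h1 h2
        rw [(tXY_NW m n).2] at g1 g2
        exact ⟨g1, g2⟩
      · obtain ⟨g1, g2, -⟩ := H.slab _ h1 h2
        rw [(tXY_NE m n).2] at g1 g2
        exact ⟨g1, g2⟩
    rw [G.Fin (f := (m, n + 1)) (x := m + n) (y := n - m + 1) (by simp only; ring)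
        (by simp only; ring) (by omega) (by omega),
      G.Vin (v := (m, n)) (x := m + n) (y := n - m) rfl rfl hrow.1 hrow.2.le]
  · exfalso
    rw [e2, e3] at h
    rcases h with ⟨h1, h2, h3, h4⟩ | ⟨h1, h2, h3, h4⟩
    · obtain ⟨-, -, g, -⟩ := H.slab _ h1 h2
      have e : tD ((2 * m, 2 * n + 1) : ℤ × ℤ) = (2 * m + 1, 2 * n) := by
        unfold tD; rw [Prod.mk.injEq]; exact ⟨rfl, by ring⟩
      rw [e] at g
      exact g.elim h3 h4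
    · obtain ⟨-, -, -, g⟩ := H.slab _ h1 h2
      have e : tU ((2 * m + 1, 2 * n) : ℤ × ℤ) = (2 * m, 2 * n + 1) := by
        unfold tU; rw [Prod.mk.injEq]; exact ⟨by ring, rfl⟩
      rw [e] at g
      exact g.elim h3 h4

/-- the value at a side between two deleted tiles -/
lemma val_DD (G : Geo D tp bt Yl Yh a0 a1 c0 c1 p p' q q') {c : ℤ × ℤ} (h1 : lab c ∈ D)
    (h2 : plab c ∈ D) :
    val D K (Fc tp bt a0 c1 Su Sl) (Vc tp bt a0 c1 p p' q q') c =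
      ind (a0 < (vx c).1 + (vx c).2 ∧ (vx c).1 + (vx c).2 < c1) := by
  rw [val_V (Or.inr h1) (Or.inr h2)]
  obtain ⟨g1, g2⟩ := G.Drow _ h1 (lab_odd c)
  obtain ⟨g3, g4⟩ := G.Drow _ h2 (plab_odd c)
  refine G.Vin rfl rfl ?_ ?_
  · obtain ⟨m, n, hc⟩ := corner_cases c
    rcases hc with ⟨e1, e2, e3, e4, e5⟩ | ⟨e1, e2, e3, e4, e5⟩ | ⟨e1, e2, e3, e4, e5⟩ |
      ⟨e1, e2, e3, e4, e5⟩ <;> rw [e4] <;> rw [e2] at g1 g2 <;> rw [e3] at g3 g4 <;>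
      unfold tY at g1 g2 g3 g4 <;> simp only at * <;> omega
  · obtain ⟨m, n, hc⟩ := corner_cases c
    rcases hc with ⟨e1, e2, e3, e4, e5⟩ | ⟨e1, e2, e3, e4, e5⟩ | ⟨e1, e2, e3, e4, e5⟩ |
      ⟨e1, e2, e3, e4, e5⟩ <;> rw [e4] <;> rw [e2] at g1 g2 <;> rw [e3] at g3 g4 <;>
      unfold tY at g1 g2 g3 g4 <;> simp only at * <;> omega

lemma exit_gen (R : Rm Λ w tp bt p p' q q' Su Sl) (G : Geo D tp bt Yl Yh a0 a1 c0 c1 p p' q q')
    (P : Pl Λ D K w tp bt a0 a1 c0 c1) {b : ℤ × ℤ}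
    (hK : ∀ c, ((lab c ∈ K ∧ plab c ∉ K ∧ plab c ∉ D) ∨ (plab c ∈ K ∧ lab c ∉ K ∧ lab c ∉ D)) →
      c ≠ b → Fc tp bt a0 c1 Su Sl (fi c) = Vc tp bt a0 c1 p p' q q' (vx c))
    (hb : val D K (Fc tp bt a0 c1 Su Sl) (Vc tp bt a0 c1 p p' q q') b = 0) :
    ∀ u v, u ∈ encl D K tp bt a0 c1 Su Sl p p' q q' → v ∉ encl D K tp bt a0 c1 Su Sl p p' q q' →
      (SG Λ D w).Adj u v → v = b := by
  refine exit_one P.Kw ?_ (fun e _ heD ho => hD_gen G heD ho (P.ext e heD ho)) hK hb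
  intro e he heK heD hew
  refine R.FC_F G he hew fun h1 h2 => ?_
  by_contra hcon
  have k7 := G.a01
  have k8 := G.c01
  have k9 := G.ac
  rcases P.pl e he h1 h2 (by omega) with h | h | h
  · exact hew h
  · exact heD h
  · exact heK h

/-- **One exit, upper half of plate `i` closed.** -/
theorem exit_iU (R : Rm Λ w tp bt p p' q q' Su Sl) (G : Geo D tp bt Yl Yh a0 a1 c0 c1 p p' q q')
    (C : Cut D Yl Yh kb c0 c1) (H : Ks D K (KU tp kb c0 c1) Yl Yh)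
    (P : Pl Λ D K w tp bt a0 a1 c0 c1) :
    ∀ u v, u ∈ encl D K tp bt a0 c1 Su Sl p p' q q' → v ∉ encl D K tp bt a0 c1 Su Sl p p' q q' →
      (SG Λ D w).Adj u v → v = bU tp kb c0 c1 p' := by
  refine exit_gen R G P (fun c h hcb => ?_) (val_bU R G C (fun e he => ?_))
  · rcases h with ⟨h1, h2, h3⟩ | ⟨h1, h2, h3⟩
    · by_cases h4 : lab c ∈ KU tp kb c0 c1
      · exact hK_up R G C c (Or.inl ⟨h4, fun g => h2 (H.sub _ g), h3⟩) hcb
      · exact hK_slab G H c (Or.inl ⟨h1, h4, h2, h3⟩)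
    · by_cases h4 : plab c ∈ KU tp kb c0 c1
      · exact hK_up R G C c (Or.inr ⟨h4, fun g => h2 (H.sub _ g), h3⟩) hcb
      · exact hK_slab G H c (Or.inr ⟨h1, h4, h2, h3⟩)
  · by_cases h4 : e ∈ KU tp kb c0 c1
    · exact Or.inl h4
    · exact Or.inr (H.slab e he h4).2.1

end Pool.Agent.H1.W
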