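import Mathlib
import Pool.Agent.H1.W.ChordUp

set_option autoImplicit false
open Finset

/-! # One exit across the chord: the upper half of plate `j` is closed (exit at the left foot) -/

namespace Pool.Agent.H1.W

open Pool.Agent.H75.Perc Pool.Agent.H75.TwoArm Pool.Agent.H60.Q1 Pool.Agent.H13.W Pool.Agent.H99.W

variable {Λ D : Set (ℤ × ℤ)} {w : Finset (ℤ × ℤ)} {tp bt : ℤ → ℤ} {Yl Yh kb a0 a1 c0 c1 : ℤ}
  {p p' q q' : ℤ × ℤ} {Su Sl : ℤ × ℤ → ZMod 2}

open Classical in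
/-- the exit at the left foot -/
noncomputable def bJ (tp : ℤ → ℤ) (kb a0 a1 : ℤ) (p : ℤ × ℤ) : ℤ × ℤ :=
  if (2 * p.1 - 1, 2 * p.2) ∈ KU tp kb a0 a1 then (2 * p.1, 2 * p.2 + 1)
  else if (2 * p.1, 2 * p.2 - 1) ∈ KU tp kb a0 a1 then (2 * p.1, 2 * p.2)
  else (2 * p.1 + 1, 2 * p.2)

/-- the right feet are after plate `j` -/
lemma Geo.pj (G : Geo D tp bt Yl Yh a0 a1 c0 c1 p p' q q') {x : ℤ} (hx : x ≤ a1) :
    x - tp x + 1 ≤ 2 * p'.1 := by
  have k1 := G.fp1'
  have k9 := G.ac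
  have := G.tpa x c0 (by omega)
  omega

/-- left side of a vertex -/
lemma hJ_1 (R : Rm Λ w tp bt p p' q q' Su Sl) (G : Geo D tp bt Yl Yh a0 a1 c0 c1 p p' q q')
    (C : Cut D Yl Yh kb a0 a1) {m n : ℤ}
    (h : (((2 * m, 2 * n - 1) : ℤ × ℤ) ∈ KU tp kb a0 a1 ∧
        ((2 * m - 1, 2 * n) : ℤ × ℤ) ∉ KU tp kb a0 a1) ∨
      (((2 * m - 1, 2 * n) : ℤ × ℤ) ∈ KU tp kb a0 a1 ∧ ((2 * m, 2 * n - 1) : ℤ × ℤ) ∉ KU tp kb a0 a1 ∧
        ((2 * m, 2 * n - 1) : ℤ × ℤ) ∉ D))
    (hb : ((2 * m, 2 * n) : ℤ × ℤ) ≠ bJ tp kb a0 a1 p) :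
    Fc tp bt a0 c1 Su Sl (m, n) = Vc tp bt a0 c1 p p' q q' (m, n) := by
  rcases h with ⟨h1, h2⟩ | ⟨h1, h2, h3⟩
  · have h1' := h1
    have h2' := h2
    rw [KU_SW] at h1
    rw [KU_NW] at h2
    have hy : n - m = tp (m + n - 1) := by omega
    have g1 := G.tpa (m + n - 1) (m + n) (by omega)
    have g2 := G.tpa (m + n - 2) (m + n - 1) (by omega)
    have g3 := G.lo (m + n - 2)
    have g4 := G.pj (x := m + n - 1) (by omega)
    have g5 := h1.2.2.1
    have g6 := C.k1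
    have hne : m ≠ p.1 := by
      intro i1
      subst i1
      have i2 := uniq_bank G.tpa (n := n) G.bp1 G.bp2 (by omega) (by omega)
      subst i2
      apply hb
      unfold bJ
      rw [if_neg h2', if_pos h1']
    clear h1 h2 h1' h2' hb
    rw [R.val (by simp only; omega) (by simp only; omega)]
    unfold Vc
    simp only
    rw [if_pos (by omega), if_pos (by omega)]
    exact ind_congr (by omega)
  · exfalso
    rw [KU_NW] at h1
    by_cases hy : n - m - 1 = kb - 1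
    · exact h3 (C.dSW hy h1.1 h1.2.1)
    · rw [KU_SW] at h2
      omega

/-- right side of a vertex -/
lemma hJ_4 (R : Rm Λ w tp bt p p' q q' Su Sl) (G : Geo D tp bt Yl Yh a0 a1 c0 c1 p p' q q')
    (C : Cut D Yl Yh kb a0 a1) {m n : ℤ}
    (h : (((2 * m, 2 * n + 1) : ℤ × ℤ) ∈ KU tp kb a0 a1 ∧ ((2 * m + 1, 2 * n) : ℤ × ℤ) ∉ KU tp kb a0 a1 ∧
        ((2 * m + 1, 2 * n) : ℤ × ℤ) ∉ D) ∨
      (((2 * m + 1, 2 * n) : ℤ × ℤ) ∈ KU tp kb a0 a1 ∧
        ((2 * m, 2 * n + 1) : ℤ × ℤ) ∉ KU tp kb a0 a1)) :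
    Fc tp bt a0 c1 Su Sl (m + 1, n + 1) = Vc tp bt a0 c1 p p' q q' (m, n) := by
  have f1 : m + 1 + (n + 1) - 1 = m + n + 1 := by ring
  have f2 : m + 1 + (n + 1) - 2 = m + n := by ring
  rcases h with ⟨h1, h2, h3⟩ | ⟨h1, h2⟩
  · exfalso
    rw [KU_NE] at h1
    by_cases hy : n - m - 1 = kb - 1
    · exact h3 (C.dSE hy h1.1 h1.2.1)
    · rw [KU_SE] at h2
      omega
  · rw [KU_SE] at h1
    rw [KU_NE] at h2
    have hy : n - m = tp (m + n) := by omega
    have g1 := G.tpa (m + n) (m + n + 1) (by omega)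
    have g2 := G.tpa (m + n - 1) (m + n) (by omega)
    have g3 := G.lo (m + n)
    have g4 := G.pj (x := m + n) (by omega)
    have g5 := h1.2.2.1
    have g6 := C.k1
    clear h1 h2
    rw [R.val (by simp only; rw [f2]; omega) (by simp only; rw [f2]; omega)]
    unfold Vc
    simp only
    rw [f1, if_pos (by omega), if_pos (by omega)]
    exact ind_congr (by omega)

/-- down side of a vertex -/
lemma hJ_2 (R : Rm Λ w tp bt p p' q q' Su Sl) (G : Geo D tp bt Yl Yh a0 a1 c0 c1 p p' q q')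
    (C : Cut D Yl Yh kb a0 a1) {m n : ℤ}
    (h : (((2 * m + 1, 2 * n) : ℤ × ℤ) ∈ KU tp kb a0 a1 ∧
        ((2 * m, 2 * n - 1) : ℤ × ℤ) ∉ KU tp kb a0 a1) ∨
      (((2 * m, 2 * n - 1) : ℤ × ℤ) ∈ KU tp kb a0 a1 ∧
        ((2 * m + 1, 2 * n) : ℤ × ℤ) ∉ KU tp kb a0 a1))
    (hb : ((2 * m + 1, 2 * n) : ℤ × ℤ) ≠ bJ tp kb a0 a1 p) :
    Fc tp bt a0 c1 Su Sl (m + 1, n) = Vc tp bt a0 c1 p p' q q' (m, n) := by
  have f1 : m + 1 + n - 1 = m + n := by ring
  have f2 : m + 1 + n - 2 = m + n - 1 := by ring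
  have k7 := G.a01
  have k8 := G.c01
  have k9 := G.ac
  have k5 := C.k1
  have mm := G.tpa (m + n - 1) (m + n) (by omega)
  rcases h with ⟨h1, h2⟩ | ⟨h1, h2⟩
  · have h2' := h2
    rw [KU_SE] at h1
    rw [KU_SW] at h2
    have hx : m + n = a0 := by omega
    obtain ⟨h11, h12, h13, h14⟩ := h1
    have hnw : ((2 * m - 1, 2 * n) : ℤ × ℤ) ∉ KU tp kb a0 a1 := by rw [KU_NW]; omega
    have g3 := G.lo (m + n - 1)
    have g6 := G.lo (m + n)
    have g4 := G.fp1
    have hbu : m = p.1 → n = p.2 → False := by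
      rintro rfl rfl
      apply hb
      unfold bJ
      rw [if_neg hnw, if_neg h2']
    have hne : tp (m + n) ≤ n - m → m ≠ p.1 := by
      intro g9 g2
      have g5 : n = p.2 := by
        subst g2
        exact uniq_bank G.tpa (n := n) G.bp1 G.bp2 g9 (by omega)
      exact hbu g2 g5
    clear h2 h2' hb h11 h12 hnw hbu
    rw [R.val (by simp only; rw [f2]; omega) (by simp only; rw [f2]; omega)]
    unfold Vc
    simp only
    rw [f1, if_neg (by omega), if_neg (by omega), ind_false (by omega)]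
    split_ifs with g1 g2
    · have := hne g1
      rw [hx] at g1 h14
      rw [ind_false (by omega)]
    · exfalso; omega
    · rfl
  · rw [KU_SW] at h1
    rw [KU_SE] at h2
    obtain ⟨h11, h12, h13, h14⟩ := h1
    have g4 := G.pj (x := m + n) (by omega)
    have g3 := G.lo (m + n - 1)
    have g6 := G.lo (m + n)
    rcases le_or_gt (tp (m + n)) (n - m - 1) with g1 | g1
    · clear h2 hb
      rw [R.val (by simp only; rw [f2]; omega) (by simp only; rw [f2]; omega)]
      unfold Vc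
      simp only
      rw [f1, if_pos (by omega), if_pos (by omega)]
      exact ind_congr (by omega)
    · have hx : m + n = a1 := by omega
      have g7 := G.fp2
      clear h2 hb
      rw [R.val (by simp only; rw [f2]; omega) (by simp only; rw [f2]; omega)]
      unfold Vc
      simp only
      rw [f1, if_neg (by omega), if_neg (by omega), ind_true (by omega)]
      split_ifs with g2 g8
      · rw [hx] at g1 g2 g4
        rw [ind_true (by omega)]
      · exfalso; omega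
      · rfl

/-- up side of a vertex -/
lemma hJ_3 (R : Rm Λ w tp bt p p' q q' Su Sl) (G : Geo D tp bt Yl Yh a0 a1 c0 c1 p p' q q')
    (C : Cut D Yl Yh kb a0 a1) {m n : ℤ}
    (h : (((2 * m - 1, 2 * n) : ℤ × ℤ) ∈ KU tp kb a0 a1 ∧
        ((2 * m, 2 * n + 1) : ℤ × ℤ) ∉ KU tp kb a0 a1) ∨
      (((2 * m, 2 * n + 1) : ℤ × ℤ) ∈ KU tp kb a0 a1 ∧
        ((2 * m - 1, 2 * n) : ℤ × ℤ) ∉ KU tp kb a0 a1))
    (hb : ((2 * m, 2 * n + 1) : ℤ × ℤ) ≠ bJ tp kb a0 a1 p) :
    Fc tp bt a0 c1 Su Sl (m, n + 1) = Vc tp bt a0 c1 p p' q q' (m, n) := by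
  have f1 : m + (n + 1) - 1 = m + n := by ring
  have f2 : m + (n + 1) - 2 = m + n - 1 := by ring
  have k7 := G.a01
  have k8 := G.c01
  have k9 := G.ac
  have k5 := C.k1
  have mm := G.tpa (m + n - 1) (m + n) (by omega)
  have g3 := G.lo (m + n - 1)
  have g6 := G.lo (m + n)
  rcases h with ⟨h1, h2⟩ | ⟨h1, h2⟩
  · have h1' := h1
    rw [KU_NW] at h1
    rw [KU_NE] at h2
    obtain ⟨h11, h12, h13, h14⟩ := h1
    have g4 := G.pj (x := m + n) (by omega)
    rcases le_or_gt (tp (m + n)) (n - m) with g1 | g1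
    · have hne : m ≠ p.1 := by
        intro i1
        subst i1
        have i2 := uniq_bank G.tpa (n := n) G.bp1 G.bp2 g1 (by omega)
        subst i2
        apply hb
        unfold bJ
        rw [if_pos h1']
      clear h2 hb h1'
      rw [R.val (by simp only; rw [f2]; omega) (by simp only; rw [f2]; omega)]
      unfold Vc
      simp only
      rw [f1, if_pos (by omega), if_pos (by omega)]
      exact ind_congr (by omega)
    · have hx : m + n = a1 := by omega
      have g7 := G.fp2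
      clear h2 hb h1'
      rw [R.val (by simp only; rw [f2]; omega) (by simp only; rw [f2]; omega)]
      unfold Vc
      simp only
      rw [f1, if_neg (by omega : ¬ tp (m + n) ≤ n - m), if_neg (by omega : ¬ n - m ≤ bt (m + n)),
        ind_true (by omega : (a0 < m + n ∧ m + n < c1))]
      rw [hx] at g1 g6 g4 ⊢
      split_ifs with g2 g8
      · rw [ind_true (by omega)]
      · exfalso; omega
      · rfl
  · rw [KU_NE] at h1
    rw [KU_NW] at h2
    have hx : m + n = a0 := by omega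
    obtain ⟨h11, h12, h13, h14⟩ := h1
    have g4 := G.fp1
    clear h2 hb
    rw [R.val (by simp only; rw [f2]; omega) (by simp only; rw [f2]; omega)]
    unfold Vc
    simp only
    rw [f1, if_neg (by omega : ¬ tp (m + n) ≤ n - m), if_neg (by omega : ¬ n - m ≤ bt (m + n)),
      ind_false (by omega : ¬ (a0 < m + n ∧ m + n < c1))]
    rw [hx] at h14 g6 ⊢
    split_ifs with g2 g8
    · rw [ind_false (by omega)]
    · exfalso; omega
    · rfl

/-- consistency at the interface of the closed upper half of plate `j` -/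
theorem hK_J (R : Rm Λ w tp bt p p' q q' Su Sl) (G : Geo D tp bt Yl Yh a0 a1 c0 c1 p p' q q')
    (C : Cut D Yl Yh kb a0 a1) (c : ℤ × ℤ)
    (h : (lab c ∈ KU tp kb a0 a1 ∧ plab c ∉ KU tp kb a0 a1 ∧ plab c ∉ D) ∨
      (plab c ∈ KU tp kb a0 a1 ∧ lab c ∉ KU tp kb a0 a1 ∧ lab c ∉ D)) (hcb : c ≠ bJ tp kb a0 a1 p) :
    Fc tp bt a0 c1 Su Sl (fi c) = Vc tp bt a0 c1 p p' q q' (vx c) := by
  obtain ⟨m, n, hc⟩ := corner_cases c
  rcases hc with ⟨e1, e2, e3, e4, e5⟩ | ⟨e1, e2, e3, e4, e5⟩ | ⟨e1, e2, e3, e4, e5⟩ |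
    ⟨e1, e2, e3, e4, e5⟩
  · rw [e2, e3] at h
    rw [e4, e5]
    exact hJ_1 R G C (h.imp (fun g => ⟨g.1, g.2.1⟩) id) (e1 ▸ hcb)
  · rw [e2, e3] at h
    rw [e4, e5]
    exact hJ_2 R G C (h.imp (fun g => ⟨g.1, g.2.1⟩) (fun g => ⟨g.1, g.2.1⟩)) (e1 ▸ hcb)
  · rw [e2, e3] at h
    rw [e4, e5]
    exact hJ_3 R G C (h.imp (fun g => ⟨g.1, g.2.1⟩) (fun g => ⟨g.1, g.2.1⟩)) (e1 ▸ hcb)
  · rw [e2, e3] at h
    rw [e4, e5]
    exact hJ_4 R G C (h.imp id (fun g => ⟨g.1, g.2.1⟩))

/-- the value at the exit -/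
lemma val_bJ {K : Set (ℤ × ℤ)} (R : Rm Λ w tp bt p p' q q' Su Sl)
    (G : Geo D tp bt Yl Yh a0 a1 c0 c1 p p' q q') (C : Cut D Yl Yh kb a0 a1)
    (hK : ∀ e ∈ K, e ∈ KU tp kb a0 a1 ∨ tY e < Yh) :
    val D K (Fc tp bt a0 c1 Su Sl) (Vc tp bt a0 c1 p p' q q') (bJ tp kb a0 a1 p) = 0 := by
  obtain ⟨m, n⟩ := p
  have b1 := G.bp1
  have b2 := G.bp2
  have k1 := G.fp1
  have k2 := G.fp2
  have g0 := G.hi (m + n)
  have c1' := C.k1
  have c2' := C.k2
  simp only at b1 b2 k1 k2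
  unfold bJ
  simp only
  by_cases h : ((2 * m - 1, 2 * n) : ℤ × ℤ) ∈ KU tp kb a0 a1
  · rw [if_pos h]
    rw [KU_NW] at h
    obtain ⟨e2, e3, e4, e5⟩ := corner_eo m n
    rw [val_F (e := (2 * m, 2 * n + 1)) (Or.inr e3.symm) (fun g => by
        rcases hK _ g with g' | g'
        · rw [KU_NE] at g'; omega
        · rw [(tXY_NE m n).2] at g'; omega)
      (G.nD (by simp only; omega) (tXY_NE m n).2 (by omega)), e5]
    have f1 : m + (n + 1) - 1 = m + n := by ring
    have f2 : m + (n + 1) - 2 = m + n - 1 := by ring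
    have g3 := G.lo (m + n - 1)
    rw [R.val (by simp only; rw [f2]; omega) (by simp only; rw [f2]; omega)]
    simp only
    rw [f1, if_pos (by omega)]
    exact ind_false (by omega)
  · rw [if_neg h]
    rw [KU_NW] at h
    by_cases hs : ((2 * m, 2 * n - 1) : ℤ × ℤ) ∈ KU tp kb a0 a1
    · rw [if_pos hs]
      rw [KU_SW] at hs
      obtain ⟨e2, e3, e4, e5⟩ := corner_ee m n
      rw [val_F (e := (2 * m - 1, 2 * n)) (Or.inr e3.symm) (fun g => by
          rcases hK _ g with g' | g'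
          · rw [KU_NW] at g'; omega
          · rw [(tXY_NW m n).2] at g'; omega)
        (G.nD (by simp only; omega) (tXY_NW m n).2 (by omega)), e5]
      have g1 := G.tpa (m + n - 2) (m + n - 1) (by omega)
      have g3 := G.lo (m + n - 2)
      rw [R.val (by simp only; omega) (by simp only; omega)]
      simp only
      rw [if_pos (by omega)]
      exact ind_false (by omega)
    · rw [if_neg hs]
      have hs' := hs
      rw [KU_SW] at hs
      obtain ⟨e2, e3, e4, e5⟩ := corner_oe m n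
      rw [val_F (e := (2 * m, 2 * n - 1)) (Or.inr e3.symm) (fun g => by
          rcases hK _ g with g' | g'
          · exact hs' g'
          · rw [(tXY_SW m n).2] at g'; omega)
        (G.nD (by simp only; omega) (tXY_SW m n).2 (by omega)), e5]
      have f1 : m + 1 + n - 1 = m + n := by ring
      have f2 : m + 1 + n - 2 = m + n - 1 := by ring
      have g3 := G.lo (m + n - 1)
      have g4 := G.lo (m + n)
      have hx1 : m + n ≤ a1 := by
        by_contra hlt
        have := G.tpa a1 (m + n - 1) (by omega)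
        omega
      have hx2 : m + n ≤ a0 := by omega
      have hx3 := G.tpa (m + n) a0 hx2
      have hx4 : m + n = a0 := by omega
      rw [R.val (by simp only; rw [f2]; omega) (by simp only; rw [f2]; omega)]
      simp only
      rw [f1, if_neg (by rw [hx4]; omega), if_neg (by omega)]
      exact ind_false (by omega)

end Pool.Agent.H1.W
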