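import Mathlib
import Pool.Agent.H1.W.ChordD
import Pool.Agent.H1.W.ChordJ
import Pool.Agent.H45.W.Sym

set_option autoImplicit false
open Finset

/-! # The block across a chord: all four cases (Route W, D7b)

`KU` : closed upper half plate, `KL` : closed lower half plate (columns `[c0,c1)`, rows
`bt x ≤ y < kt`). The lower cases follow by the swap. `block_chord` : if exactly one of the four half
plates is closed, all edges from the enclosed set `encl` to the outside lead to one corner. -/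

namespace Pool.Agent.H1.W

open Pool.Agent.H75.Perc Pool.Agent.H75.TwoArm Pool.Agent.H60.Q1 Pool.Agent.H13.W Pool.Agent.H99.W
open Pool.Agent.H45.W (sw swS swF sw_sw lab_sw plab_sw SG_sw mem_swS mem_swF)

variable {Λ D K : Set (ℤ × ℤ)} {w : Finset (ℤ × ℤ)} {tp bt : ℤ → ℤ} {Yl Yh kb kt a0 a1 c0 c1 : ℤ}
  {p p' q q' : ℤ × ℤ} {Su Sl : ℤ × ℤ → ZMod 2}

lemma tX_sw (e : ℤ × ℤ) : tX (sw e) = tX e := by
  unfold tX sw; simp only; rw [add_comm e.2 e.1]

lemma tY_sw {e : ℤ × ℤ} (ho : (e.1 + e.2) % 2 = 1) : tY (sw e) = -1 - tY e := by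
  unfold tY sw; simp only; omega

lemma odd_sw {e : ℤ × ℤ} (ho : (e.1 + e.2) % 2 = 1) : ((sw e).1 + (sw e).2) % 2 = 1 := by
  unfold sw; simp only; omega

lemma FC_sw {S : ℤ × ℤ → ZMod 2} {e : ℤ × ℤ} (h : FC S (sw e)) : FC (fun f => S (sw f)) e := by
  intro f g hfg he
  refine h (sw f) (sw g) ?_ ?_
  · unfold IsUnit4 sw at *
    simp only [Prod.ext_iff, Prod.fst_sub, Prod.snd_sub] at *
    omega
  · rw [← he]; rfl

/-- a lower half plate: columns `[c0,c1)`, rows `bt x ≤ y < kt` -/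
def KL (bt : ℤ → ℤ) (kt c0 c1 : ℤ) : Set (ℤ × ℤ) :=
  {e | (e.1 + e.2) % 2 = 1 ∧ c0 ≤ tX e ∧ tX e < c1 ∧ bt (tX e) ≤ tY e ∧ tY e < kt}

lemma swS_KL : swS (KL bt kt c0 c1) = KU (fun x => - bt x) (-kt) c0 c1 := by
  ext e
  rw [mem_swS]
  constructor
  · rintro ⟨h1, h2, h3, h4, h5⟩
    have ho : (e.1 + e.2) % 2 = 1 := by unfold sw at h1; simp only at h1; omega
    rw [tX_sw] at h2 h3 h4
    rw [tY_sw ho] at h4 h5
    exact ⟨ho, h2, h3, by omega, by simp only; omega⟩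
  · rintro ⟨h1, h2, h3, h4, h5⟩
    simp only at h5
    refine ⟨odd_sw h1, ?_, ?_, ?_, ?_⟩
    · rwa [tX_sw]
    · rwa [tX_sw]
    · rw [tX_sw, tY_sw h1]; omega
    · rw [tY_sw h1]; omega

/-- the row above the half plate is deleted -/
structure CutL (D : Set (ℤ × ℤ)) (Yl Yh kt c0 c1 : ℤ) : Prop where
  k1 : Yl ≤ kt
  k2 : kt < Yh
  del : ∀ e : ℤ × ℤ, (e.1 + e.2) % 2 = 1 → tY e = kt → c0 ≤ tX e → tX e < c1 → e ∈ D

lemma CutL.swp (C : CutL D Yl Yh kt c0 c1) : Cut (swS D) (-Yh) (-Yl) (-kt) c0 c1 where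
  k1 := by have := C.k2; omega
  k2 := by have := C.k1; omega
  del := by
    intro e ho h1 h2 h3
    rw [mem_swS]
    exact C.del _ (odd_sw ho) (by rw [tY_sw ho]; omega) (by rwa [tX_sw]) (by rwa [tX_sw])

lemma Rm.swp (R : Rm Λ w tp bt p p' q q' Su Sl) :
    Rm (swS Λ) (swF w) (fun x => - bt x) (fun x => - tp x) (sw q) (sw q') (sw p) (sw p')
      (fun f => Sl (sw f)) (fun f => Su (sw f)) where
  odd := by
    intro e he
    have := R.odd _ he
    unfold sw at this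
    simp only at this
    omega
  FCu := by
    intro e he h1 h2
    have ho := R.odd _ he
    have ho' : (e.1 + e.2) % 2 = 1 := by unfold sw at ho; simp only at ho; omega
    refine FC_sw (R.FCl _ he ?_ (fun h => h2 (mem_swF.2 h)))
    rw [tX_sw, tY_sw ho']; omega
  FCl := by
    intro e he h1 h2
    have ho := R.odd _ he
    have ho' : (e.1 + e.2) % 2 = 1 := by unfold sw at ho; simp only at ho; omega
    refine FC_sw (R.FCu _ he ?_ (fun h => h2 (mem_swF.2 h)))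
    rw [tX_sw, tY_sw ho']; omega
  bu := by
    intro f h1 h2
    have e1 : (sw f).1 + (sw f).2 - 1 = f.1 + f.2 - 1 := by unfold sw; simp only; ring
    have e2 : (sw f).1 + (sw f).2 - 2 = f.1 + f.2 - 2 := by unfold sw; simp only; ring
    have e3 : (sw f).2 - (sw f).1 = - (f.2 - f.1) := by unfold sw; simp only; ring
    refine (R.bl (sw f) (by rw [e1, e3]; omega) (by rw [e2, e3]; omega)).trans ?_
    rfl
  bl := by
    intro f h1 h2
    have e1 : (sw f).1 + (sw f).2 - 1 = f.1 + f.2 - 1 := by unfold sw; simp only; ring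
    have e2 : (sw f).1 + (sw f).2 - 2 = f.1 + f.2 - 2 := by unfold sw; simp only; ring
    have e3 : (sw f).2 - (sw f).1 = - (f.2 - f.1) := by unfold sw; simp only; ring
    refine (R.bu (sw f) (by rw [e1, e3]; omega) (by rw [e2, e3]; omega)).trans ?_
    rfl

lemma Geo.swp (G : Geo D tp bt Yl Yh a0 a1 c0 c1 p p' q q') :
    Geo (swS D) (fun x => - bt x) (fun x => - tp x) (-Yh) (-Yl) a0 a1 c0 c1 (sw q) (sw q') (sw p)
      (sw p') where
  tpa := fun x y h => neg_le_neg (G.btm x y h)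
  btm := fun x y h => neg_le_neg (G.tpa x y h)
  lo := fun x => neg_lt_neg (G.hi x)
  hi := fun x => neg_lt_neg (G.lo x)
  YY := neg_le_neg G.YY
  a01 := G.a01
  ac := G.ac
  c01 := G.c01
  Drow := by
    intro e he ho
    have := G.Drow _ he (odd_sw ho)
    rw [tY_sw ho] at this
    omega
  bp1 := by have := G.bq1; unfold sw; simp only; rw [add_comm q.2 q.1]; omega
  bp2 := by have := G.bq2; unfold sw; simp only; rw [add_comm q.2 q.1]; omega
  bp1' := by have := G.bq1'; unfold sw; simp only; rw [add_comm q'.2 q'.1]; omega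
  bp2' := by have := G.bq2'; unfold sw; simp only; rw [add_comm q'.2 q'.1]; omega
  bq1 := by have := G.bp1; unfold sw; simp only; rw [add_comm p.2 p.1]; omega
  bq2 := by have := G.bp2; unfold sw; simp only; rw [add_comm p.2 p.1]; omega
  bq1' := by have := G.bp1'; unfold sw; simp only; rw [add_comm p'.2 p'.1]; omega
  bq2' := by have := G.bp2'; unfold sw; simp only; rw [add_comm p'.2 p'.1]; omega
  fp1 := by have := G.fq1; unfold sw; simp only; omega
  fp2 := by have := G.fq2; unfold sw; simp only; omega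
  fp1' := by have := G.fq1'; unfold sw; simp only; omega
  fp2' := by have := G.fq2'; unfold sw; simp only; omega
  fq1 := by have := G.fp1; unfold sw; simp only; omega
  fq2 := by have := G.fp2; unfold sw; simp only; omega
  fq1' := by have := G.fp1'; unfold sw; simp only; omega
  fq2' := by have := G.fp2'; unfold sw; simp only; omega

lemma Pl.swp (hΛ : ∀ e ∈ Λ, (e.1 + e.2) % 2 = 1) (P : Pl Λ D K w tp bt a0 a1 c0 c1) :
    Pl (swS Λ) (swS D) (swS K) (swF w) (fun x => - bt x) (fun x => - tp x) a0 a1 c0 c1 where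
  Kw := fun e he h => P.Kw _ he (mem_swF.1 h)
  pl := by
    intro e he h1 h2 h3
    have ho := hΛ _ he
    have ho' : (e.1 + e.2) % 2 = 1 := by
      unfold Pool.Agent.H45.W.sw at ho; simp only at ho; omega
    have h4 := P.pl _ he (by rw [tX_sw, tY_sw ho']; omega) (by rw [tX_sw, tY_sw ho']; omega)
      (by rw [tX_sw]; exact h3)
    rcases h4 with h | h | h
    · exact Or.inl (mem_swF.2 h)
    · exact Or.inr (Or.inl h)
    · exact Or.inr (Or.inr h)
  ext := by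
    intro e he ho h1
    have := P.ext _ he (odd_sw ho) (by rw [tX_sw]; exact h1)
    have e1 : Pool.Agent.H45.W.sw (tD e) = tU (Pool.Agent.H45.W.sw e) := rfl
    have e2 : Pool.Agent.H45.W.sw (tU e) = tD (Pool.Agent.H45.W.sw e) := rfl
    rw [mem_swS, mem_swS, mem_swS, mem_swS, e1, e2]
    tauto

/-- the enclosed set under the swap -/
lemma mem_encl_sw (G : Geo D tp bt Yl Yh a0 a1 c0 c1 p p' q q') (c : ℤ × ℤ) :
    sw c ∈ encl (swS D) (swS K) (fun x => - bt x) (fun x => - tp x) a0 c1 (fun f => Sl (sw f))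
      (fun f => Su (sw f)) (sw q) (sw q') (sw p) (sw p') ↔
    c ∈ encl D K tp bt a0 c1 Su Sl p p' q q' := by
  have hF : ∀ f : ℤ × ℤ, Fc (fun x => - bt x) (fun x => - tp x) a0 c1 (fun f => Sl (sw f))
      (fun f => Su (sw f)) (sw f) = Fc tp bt a0 c1 Su Sl f := by
    intro f
    have g1 := G.lo (f.1 + f.2 - 1)
    have g2 := G.hi (f.1 + f.2 - 1)
    have g3 := G.YY
    have e1 : (sw f).1 + (sw f).2 - 1 = f.1 + f.2 - 1 := by unfold sw; simp only; ring
    have e3 : (sw f).2 - (sw f).1 = - (f.2 - f.1) := by unfold sw; simp only; ring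
    unfold Fc
    rw [e1, e3]
    simp only [sw_sw]
    by_cases h1 : tp (f.1 + f.2 - 1) ≤ f.2 - f.1
    · rw [if_neg (by omega), if_pos (by omega), if_pos h1]
    · by_cases h2 : f.2 - f.1 ≤ bt (f.1 + f.2 - 1)
      · rw [if_pos (by omega), if_neg h1, if_pos h2]
      · rw [if_neg (by omega), if_neg (by omega), if_neg h1, if_neg h2]
  have hV : ∀ v : ℤ × ℤ, Vc (fun x => - bt x) (fun x => - tp x) a0 c1 (sw q) (sw q') (sw p) (sw p')
      (sw v) = Vc tp bt a0 c1 p p' q q' v := by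
    intro v
    have g1 := G.lo (v.1 + v.2)
    have g2 := G.hi (v.1 + v.2)
    have g3 := G.YY
    have e1 : (sw v).1 + (sw v).2 = v.1 + v.2 := by unfold sw; simp only; ring
    have e3 : (sw v).2 - (sw v).1 = - (v.2 - v.1) := by unfold sw; simp only; ring
    unfold Vc
    rw [e1, e3]
    simp only
    by_cases h1 : tp (v.1 + v.2) ≤ v.2 - v.1
    · rw [if_neg (by omega), if_pos (by omega), if_pos h1]
      rfl
    · by_cases h2 : v.2 - v.1 ≤ bt (v.1 + v.2)
      · rw [if_pos (by omega), if_neg h1, if_pos h2]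
        rfl
      · rw [if_neg (by omega), if_neg (by omega), if_neg h1, if_neg h2]
  have hval : val (swS D) (swS K) (Fc (fun x => - bt x) (fun x => - tp x) a0 c1
      (fun f => Sl (sw f)) (fun f => Su (sw f)))
      (Vc (fun x => - bt x) (fun x => - tp x) a0 c1 (sw q) (sw q') (sw p) (sw p')) (sw c) =
      val D K (Fc tp bt a0 c1 Su Sl) (Vc tp bt a0 c1 p p' q q') c := by
    have e1 : vx (sw c) = sw (vx c) := rfl
    have e2 : fi (sw c) = sw (fi c) := rfl
    unfold val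
    rw [lab_sw, plab_sw, e1, e2, hF, hV]
    by_cases h : (plab c ∈ K ∨ plab c ∈ D) ∧ (lab c ∈ K ∨ lab c ∈ D)
    · rw [if_pos (show (sw (plab c) ∈ swS K ∨ sw (plab c) ∈ swS D) ∧
        (sw (lab c) ∈ swS K ∨ sw (lab c) ∈ swS D) from h), if_pos h.symm]
    · rw [if_neg (show ¬ ((sw (plab c) ∈ swS K ∨ sw (plab c) ∈ swS D) ∧
        (sw (lab c) ∈ swS K ∨ sw (lab c) ∈ swS D)) from h), if_neg (fun g => h g.symm)]
  unfold encl
  show val _ _ _ _ (sw c) = 1 ↔ val _ _ _ _ c = 1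
  rw [hval]

/-- **One exit, upper half of plate `j` closed.** -/
theorem exit_jU (R : Rm Λ w tp bt p p' q q' Su Sl) (G : Geo D tp bt Yl Yh a0 a1 c0 c1 p p' q q')
    (C : Cut D Yl Yh kb a0 a1) (H : Ks D K (KU tp kb a0 a1) Yl Yh)
    (P : Pl Λ D K w tp bt a0 a1 c0 c1) :
    ∀ u v, u ∈ encl D K tp bt a0 c1 Su Sl p p' q q' → v ∉ encl D K tp bt a0 c1 Su Sl p p' q q' →
      (SG Λ D w).Adj u v → v = bJ tp kb a0 a1 p := by
  refine exit_gen R G P (fun c h hcb => ?_) (val_bJ R G C (fun e he => ?_))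
  · rcases h with ⟨h1, h2, h3⟩ | ⟨h1, h2, h3⟩
    · by_cases h4 : lab c ∈ KU tp kb a0 a1
      · exact hK_J R G C c (Or.inl ⟨h4, fun g => h2 (H.sub _ g), h3⟩) hcb
      · exact hK_slab G H c (Or.inl ⟨h1, h4, h2, h3⟩)
    · by_cases h4 : plab c ∈ KU tp kb a0 a1
      · exact hK_J R G C c (Or.inr ⟨h4, fun g => h2 (H.sub _ g), h3⟩) hcb
      · exact hK_slab G H c (Or.inr ⟨h1, h4, h2, h3⟩)
  · by_cases h4 : e ∈ KU tp kb a0 a1
    · exact Or.inl h4
    · exact Or.inr (H.slab e he h4).2.1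

lemma Ks.swp {K0 : Set (ℤ × ℤ)} (hKo : ∀ e ∈ K, (e.1 + e.2) % 2 = 1) (H : Ks D K K0 Yl Yh) :
    Ks (swS D) (swS K) (swS K0) (-Yh) (-Yl) where
  sub := fun e he => H.sub _ he
  slab := by
    intro e he h0
    obtain ⟨g1, g2, g3, g4⟩ := H.slab _ he h0
    have ho := hKo _ he
    have ho' : (e.1 + e.2) % 2 = 1 := by
      unfold Pool.Agent.H45.W.sw at ho; simp only at ho; omega
    rw [tY_sw ho'] at g1 g2
    refine ⟨by omega, by omega, ?_, ?_⟩
    · exact g4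
    · exact g3

/-- **One exit, lower half of plate `i` closed.** -/
theorem exit_iL (R : Rm Λ w tp bt p p' q q' Su Sl) (G : Geo D tp bt Yl Yh a0 a1 c0 c1 p p' q q')
    (C : CutL D Yl Yh kt c0 c1) (H : Ks D K (KL bt kt c0 c1) Yl Yh)
    (hKo : ∀ e ∈ K, (e.1 + e.2) % 2 = 1) (P : Pl Λ D K w tp bt a0 a1 c0 c1) :
    ∀ u v, u ∈ encl D K tp bt a0 c1 Su Sl p p' q q' → v ∉ encl D K tp bt a0 c1 Su Sl p p' q q' →
      (SG Λ D w).Adj u v → v = sw (bU (fun x => - bt x) (-kt) c0 c1 (sw q')) := by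
  intro u v hu hv huv
  rw [← mem_encl_sw G] at hu hv
  have := exit_iU R.swp G.swp C.swp (swS_KL ▸ H.swp hKo) (P.swp R.odd) _ _ hu hv (SG_sw.2 huv)
  rw [← this, sw_sw]

/-- **One exit, lower half of plate `j` closed.** -/
theorem exit_jL (R : Rm Λ w tp bt p p' q q' Su Sl) (G : Geo D tp bt Yl Yh a0 a1 c0 c1 p p' q q')
    (C : CutL D Yl Yh kt a0 a1) (H : Ks D K (KL bt kt a0 a1) Yl Yh)
    (hKo : ∀ e ∈ K, (e.1 + e.2) % 2 = 1) (P : Pl Λ D K w tp bt a0 a1 c0 c1) :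
    ∀ u v, u ∈ encl D K tp bt a0 c1 Su Sl p p' q q' → v ∉ encl D K tp bt a0 c1 Su Sl p p' q q' →
      (SG Λ D w).Adj u v → v = sw (bJ (fun x => - bt x) (-kt) a0 a1 (sw q)) := by
  intro u v hu hv huv
  rw [← mem_encl_sw G] at hu hv
  have := exit_jU R.swp G.swp C.swp (swS_KL ▸ H.swp hKo) (P.swp R.odd) _ _ hu hv (SG_sw.2 huv)
  rw [← this, sw_sw]

/-- `K` is closed half plate number `0..3` (iU, iL, jU, jL) with its deleted row -/
def Half (D K : Set (ℤ × ℤ)) (tp bt : ℤ → ℤ) (Yl Yh a0 a1 c0 c1 : ℤ) : Prop :=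
  (∃ kb, Cut D Yl Yh kb c0 c1 ∧ Ks D K (KU tp kb c0 c1) Yl Yh) ∨
  (∃ kt, CutL D Yl Yh kt c0 c1 ∧ Ks D K (KL bt kt c0 c1) Yl Yh) ∨
  (∃ kb, Cut D Yl Yh kb a0 a1 ∧ Ks D K (KU tp kb a0 a1) Yl Yh) ∨
  (∃ kt, CutL D Yl Yh kt a0 a1 ∧ Ks D K (KL bt kt a0 a1) Yl Yh)

/-- **One exit across a chord, all cases.** -/
theorem block_chord (R : Rm Λ w tp bt p p' q q' Su Sl) (G : Geo D tp bt Yl Yh a0 a1 c0 c1 p p' q q')
    (H : Half D K tp bt Yl Yh a0 a1 c0 c1) (hKo : ∀ e ∈ K, (e.1 + e.2) % 2 = 1)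
    (P : Pl Λ D K w tp bt a0 a1 c0 c1) :
    ∃ b, ∀ u v, u ∈ encl D K tp bt a0 c1 Su Sl p p' q q' →
      v ∉ encl D K tp bt a0 c1 Su Sl p p' q q' → (SG Λ D w).Adj u v → v = b := by
  rcases H with ⟨k, C, H⟩ | ⟨k, C, H⟩ | ⟨k, C, H⟩ | ⟨k, C, H⟩
  · exact ⟨_, exit_iU R G C H P⟩
  · exact ⟨_, exit_iL R G C H hKo P⟩
  · exact ⟨_, exit_jU R G C H P⟩
  · exact ⟨_, exit_jL R G C H hKo P⟩

end Pool.Agent.H1.W
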