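import Mathlib
import Pool.Agent.H54.W.RoomBox
import Pool.Agent.H47.W.Room4

set_option autoImplicit false
open Finset

/-! # Four ends at the sides of a rectangle of tiles

`rect4` : in the strand graph of the rectangle `Zb X1 X2 Y1 Y2` with a deleted half row, two strands which join
vertical boundary sides do not cross. Order of the four ends: the lower part of the right side (at most the
first one), the left side upwards, the upper part of the right side (at most the last one). -/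

namespace Pool.Agent.H1.W

open Pool.Agent.H75.Perc Pool.Agent.H75.TwoArm Pool.Agent.H99.W Pool.Agent.H13.W Pool.Agent.H33.Q1
open Pool.Agent.H47.W Pool.Agent.H21.W Pool.Agent.H54.W

lemma mem_Zb' {X1 X2 Y1 Y2 x y : ℤ} :
    vt x y ∈ Zb X1 X2 Y1 Y2 ↔ X1 ≤ x ∧ x < X2 ∧ Y1 ≤ y ∧ y < Y2 := mem_Zb

/-- the four ends -/
structure Q4 (X1 X2 Y1 Y2 lo hi : ℤ) (X Y : ℕ → ℤ) : Prop where
  xx : X1 < X2
  lh : lo < hi
  c0 : (X 0 = X2 ∧ Y 0 ≤ lo) ∨ (X 0 = X1 ∧ Y 0 < Y 1)
  c1 : X 1 = X1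
  c2 : X 2 = X1
  c3 : (X 3 = X2 ∧ hi ≤ Y 3) ∨ (X 3 = X1 ∧ Y 2 < Y 3)
  m12 : Y 1 < Y 2
  lo' : ∀ i < 4, Y1 ≤ Y i
  hi' : ∀ i < 4, Y i < Y2

/-- **Two strands between the sides of a rectangle do not cross.** -/
theorem rect4 {X1 X2 Y1 Y2 lo hi x0 r : ℤ} {X Y : ℕ → ℤ} {w : Finset (ℤ × ℤ)}
    (Q : Q4 X1 X2 Y1 Y2 lo hi X Y) (hr1 : lo < r) (hr2 : r < hi) (hx0 : X1 < x0)
    (h1 : (SG (Zb X1 X2 Y1 Y2) (DR x0 r) w).Reachable (vt (X 0) (Y 0)) (vt (X 2) (Y 2)))
    (h2 : (SG (Zb X1 X2 Y1 Y2) (DR x0 r) w).Reachable (vt (X 1) (Y 1)) (vt (X 3) (Y 3))) :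
    False := by
  obtain ⟨xx, lh, c0, c1, c2, c3, m12, lo', hi'⟩ := Q
  have l0 := lo' 0 (by norm_num); have l1 := lo' 1 (by norm_num)
  have l2 := lo' 2 (by norm_num); have l3 := lo' 3 (by norm_num)
  have u0 := hi' 0 (by norm_num); have u1 := hi' 1 (by norm_num)
  have u2 := hi' 2 (by norm_num); have u3 := hi' 3 (by norm_num)
  set Λ := Zb X1 X2 Y1 Y2 with hΛ
  set M : Set (ℤ × ℤ) := {c | ∃ j < 4, c = vt (X j) (Y j)} with hM
  have bL : ∀ y, Y1 ≤ y → y < Y2 → Bd Λ (vt X1 y) := fun y a b => by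
    rw [Bd_vt, hΛ, mem_Zb', mem_Zb']; omega
  have bR : ∀ y, Y1 ≤ y → y < Y2 → Bd Λ (vt X2 y) := fun y a b => by
    rw [Bd_vt, hΛ, mem_Zb', mem_Zb']; omega
  have bB : ∀ x, X1 ≤ x → x < X2 → Bd Λ (hz x Y1) := fun x a b => by
    rw [Bd_hz, hΛ, mem_Zb', mem_Zb']; omega
  have bT : ∀ x, X1 ≤ x → x < X2 → Bd Λ (hz x Y2) := fun x a b => by
    rw [Bd_hz, hΛ, mem_Zb', mem_Zb']; omega
  have nM : ∀ x y, (∀ j < 4, ¬ (x = X j ∧ y = Y j)) → vt x y ∉ M := by
    rintro x y h ⟨j, hj, e⟩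
    exact h j hj (vt_inj e)
  have nH : ∀ x y, hz x y ∉ M := by
    rintro x y ⟨j, hj, e⟩
    exact hz_ne_vt _ _ _ _ e
  -- left side
  have BL : ∀ y y', Y1 ≤ y → y ≤ y' → y' ≤ Y2 → (∀ t, y ≤ t → t < y' → ∀ j < 4,
      ¬ (X1 = X j ∧ t = Y j)) → BC Λ M (X1, y) (X1, y') := fun y y' a b c h =>
    BC_v b fun t k1 k2 => ⟨bL t (by omega) (by omega), nM _ _ (h t k1 k2)⟩
  have BR : ∀ y y', Y1 ≤ y → y ≤ y' → y' ≤ Y2 → (∀ t, y ≤ t → t < y' → ∀ j < 4,
      ¬ (X2 = X j ∧ t = Y j)) → BC Λ M (X2, y) (X2, y') := fun y y' a b c h =>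
    BC_v b fun t k1 k2 => ⟨bR t (by omega) (by omega), nM _ _ (h t k1 k2)⟩
  have BB : BC Λ M (X1, Y1) (X2, Y1) :=
    BC_h xx.le fun x k1 k2 => ⟨bB x k1 k2, nH _ _⟩
  have BT : BC Λ M (X1, Y2) (X2, Y2) :=
    BC_h xx.le fun x k1 k2 => ⟨bT x k1 k2, nH _ _⟩
  set qm : ℕ → ℤ × ℤ := fun i => if X i = X1 then (X i, Y i) else (X i, Y i + 1) with hqm
  set qp : ℕ → ℤ × ℤ := fun i => if X i = X1 then (X i, Y i + 1) else (X i, Y i) with hqp
  have four : ∀ {P : ℕ → Prop}, P 0 → P 1 → P 2 → P 3 → ∀ i < 4, P i := by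
    intro P p0 p1 p2 p3 i hi
    interval_cases i
    · exact p0
    · exact p1
    · exact p2
    · exact p3
  have hm : Marks Λ 4 (fun i => vt (X i) (Y i)) qm qp := by
    refine ⟨fun i _ => ?_, ?_, ?_, ?_⟩
    · by_cases h : X i = X1
      · simp only [hqm, hqp, if_pos h]
        exact Jn_vt _ _
      · simp only [hqm, hqp, if_neg h]
        exact (Jn_vt _ _).symm
    · refine four ?_ ?_ ?_ ?_
      · rcases c0 with ⟨e, -⟩ | ⟨e, -⟩
        · simp only [e]; exact bR _ l0 u0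
        · simp only [e]; exact bL _ l0 u0
      · simp only [c1]; exact bL _ l1 u1
      · simp only [c2]; exact bL _ l2 u2
      · rcases c3 with ⟨e, -⟩ | ⟨e, -⟩
        · simp only [e]; exact bR _ l3 u3
        · simp only [e]; exact bL _ l3 u3
    · intro i hi j hj e
      obtain ⟨e1, e2⟩ := vt_inj e
      interval_cases i <;> interval_cases j <;> first | rfl | (exfalso; omega)
    · intro i hi
      have hi' : i < 3 := by omega
      interval_cases i
      · show BC Λ M (qp 0) (qm 1)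
        have e1 : qm 1 = (X1, Y 1) := by simp only [hqm, c1, if_true]
        rw [e1]
        rcases c0 with ⟨e, k⟩ | ⟨e, k⟩
        · have e0 : qp 0 = (X2, Y 0) := by
            simp only [hqp, e]; rw [if_neg (by omega)]
          rw [e0]
          refine (BR Y1 (Y 0) le_rfl l0 u0.le ?_).symm.trans (BB.symm.trans
            (BL Y1 (Y 1) le_rfl l1 u1.le ?_))
          · intro t k1 k2
            refine four ?_ ?_ ?_ ?_ <;> omega
          · intro t k1 k2
            refine four ?_ ?_ ?_ ?_ <;> omega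
        · have e0 : qp 0 = (X1, Y 0 + 1) := by simp only [hqp, e, if_true]
          rw [e0]
          refine BL _ _ (by omega) (by omega) u1.le ?_
          intro t k1 k2
          refine four ?_ ?_ ?_ ?_ <;> omega
      · show BC Λ M (qp 1) (qm 2)
        have e1 : qp 1 = (X1, Y 1 + 1) := by simp only [hqp, c1, if_true]
        have e2 : qm 2 = (X1, Y 2) := by simp only [hqm, c2, if_true]
        rw [e1, e2]
        refine BL _ _ (by omega) (by omega) u2.le ?_
        intro t k1 k2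
        refine four ?_ ?_ ?_ ?_ <;> omega
      · show BC Λ M (qp 2) (qm 3)
        have e1 : qp 2 = (X1, Y 2 + 1) := by simp only [hqp, c2, if_true]
        rw [e1]
        rcases c3 with ⟨e, k⟩ | ⟨e, k⟩
        · have e3 : qm 3 = (X2, Y 3 + 1) := by
            simp only [hqm, e]; rw [if_neg (by omega)]
          rw [e3]
          refine (BL (Y 2 + 1) Y2 (by omega) (by omega) le_rfl ?_).trans (BT.trans
            (BR (Y 3 + 1) Y2 (by omega) (by omega) le_rfl ?_).symm)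
          · intro t k1 k2
            refine four ?_ ?_ ?_ ?_ <;> omega
          · intro t k1 k2
            refine four ?_ ?_ ?_ ?_ <;> omega
        · have e3 : qm 3 = (X1, Y 3) := by simp only [hqm, e, if_true]
          rw [e3]
          refine BL _ _ (by omega) (by omega) u3.le ?_
          intro t k1 k2
          refine four ?_ ?_ ?_ ?_ <;> omega
  have hR : Rows Λ Y1 Y2 (fun _ => X1) (fun _ => X2) := by
    intro x y
    rw [hΛ, mem_Zb']
    tauto
  refine sg_planar hm (i1 := 0) (i2 := 1) (i3 := 2) (i4 := 3) (by norm_num) (by norm_num)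
    (by norm_num) (by norm_num) (fun o o' ho ho' => TC_rows hR ho.odd ho'.odd ho.1 ho'.1) ?_ ?_ h1 h2
  · rintro e - ⟨p, ⟨hp1, hp2⟩, rfl⟩
    have k1 : eW (lt p) = vt p.1 p.2 := rfl
    have k2 : eE (lt p) = vt (p.1 + 1) p.2 := eE_vt p.1 p.2
    rw [k1, k2]
    refine ⟨fun h => ?_, fun h => ?_, fun h => ?_, fun h => ?_⟩ <;>
      obtain ⟨a, b⟩ := vt_inj h <;> omega
  · rintro e - ⟨p, -, rfl⟩
    exact lt_odd p

end Pool.Agent.H1.W
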