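import Mathlib
import Pool.Agent.H25.W.RAct
import Pool.Agent.H1.W.Rect4

set_option autoImplicit false
set_option linter.constructorNameAsVariable false
open Finset

/-! # The strands of a room do not cross (25's `NCAll`)

`toNE` : 54's name of the corner `k`; `ok_toNE`, `pe_toNE` : it exists iff `k` is a mark and its end is `nm`.
`wbox`, `boxIn` : a rectangle which contains the room, with the colours of its walls. By 54's bridge the
pairing of the marks is the pairing of the ends at the sides of the rectangle, where two strands do not cross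
(`rect4`). `ncAll` : the statement of 25; `rInAll` : 25's `RInAll`. -/

namespace Pool.Agent.H1.W

open Pool.Agent.H75.Perc Pool.Agent.H75.TwoArm Pool.Agent.H99.W Pool.Agent.H13.W Pool.Agent.H33.Q1
open Pool.Agent.H47.W Pool.Agent.H21.W Pool.Agent.H54.W Pool.Agent.H20.W Pool.Agent.H25.W
open Pool.Agent.H73.W (NX)

/-- 54's name of the corner `k` -/
def toNE (C : CD) (k : ℤ) : NE := if k < 0 then NE.b else if k ≤ C.H then NE.l k else NE.t

variable {C : CD} {c0 : Bool} {n x0 r : ℤ}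

/-- the corner `k` is a mark iff the name exists -/
lemma ok_toNE {k : ℤ} (h1 : -1 ≤ k) (h2 : k ≤ C.H + 1) :
    C.ok c0 (toNE C k) ↔ Pool.Agent.H20.W.col C c0 k ≠ Pool.Agent.H20.W.col C c0 (k + 1) := by
  have hH := C.H0
  unfold toNE
  by_cases a : k < 0
  · have e : k = -1 := by omega
    subst e
    rw [if_pos a]
    unfold CD.ok Pool.Agent.H20.W.col
    simp only
    rw [if_pos (by omega), if_neg (by omega), if_pos (by omega)]
    exact ⟨fun h => h.symm, fun h => h.symm⟩
  · rw [if_neg a]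
    by_cases b : k ≤ C.H
    · rw [if_pos b]
      have e1 : Pool.Agent.H20.W.col C c0 k = C.cLo k := by
        unfold Pool.Agent.H20.W.col CD.cLo
        rw [if_neg a]
        by_cases c : k = 0
        · rw [if_pos c, if_pos c]
        · rw [if_neg c, if_neg c, if_pos b]
      have e2 : Pool.Agent.H20.W.col C c0 (k + 1) = C.cUp k := by
        unfold Pool.Agent.H20.W.col CD.cUp
        rw [if_neg (by omega), if_neg (by omega)]
        by_cases c : k = C.H
        · rw [if_pos c, if_neg (by omega), if_pos (by omega)]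
        · rw [if_neg c, if_pos (by omega), add_sub_cancel_right]
      rw [e1, e2]
      unfold CD.ok
      simp only
      exact ⟨fun h => h.2.2, fun h => ⟨by omega, b, h⟩⟩
    · have e : k = C.H + 1 := by omega
      subst e
      rw [if_neg b]
      have ec : Pool.Agent.H20.W.col C c0 (C.H + 1) = C.CT := by
        unfold Pool.Agent.H20.W.col
        rw [if_neg (by omega), if_neg (by omega), if_neg (by omega), if_pos rfl]
      have ec' : Pool.Agent.H20.W.col C c0 (C.H + 1 + 1) = !c0 := by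
        unfold Pool.Agent.H20.W.col
        rw [if_neg (by omega), if_neg (by omega), if_neg (by omega), if_neg (by omega)]
      rw [ec, ec']
      unfold CD.ok
      simp only
      cases C.CT <;> cases c0 <;> simp

/-- the end with the name `k` -/
lemma pe_toNE {k : ℤ} (h : Mk C c0 k) : C.pe n c0 x0 r (toNE C k) = nm C c0 n k := by
  have hH := C.H0
  obtain ⟨h1, h2, h3⟩ := h
  unfold toNE nm
  by_cases a : k < 0
  · have e : k = -1 := by omega
    subst e
    have ec : Pool.Agent.H20.W.col C c0 (-1) = c0 := by unfold Pool.Agent.H20.W.col; rw [if_pos a]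
    unfold CD.pe wd qx qy
    simp only [if_pos a, true_or, ec, if_true]
    cases c0
    · simp [sdp]
    · simp [sdp]
  · by_cases b : k ≤ C.H
    · have e1 : Pool.Agent.H20.W.col C c0 k = C.cLo k := by
        unfold Pool.Agent.H20.W.col CD.cLo
        rw [if_neg a]
        by_cases c : k = 0
        · rw [if_pos c, if_pos c]
        · rw [if_neg c, if_neg c, if_pos b]
      have e2 : Pool.Agent.H20.W.col C c0 (k + 1) = C.cUp k := by
        unfold Pool.Agent.H20.W.col CD.cUp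
        rw [if_neg (by omega), if_neg (by omega)]
        by_cases c : k = C.H
        · rw [if_pos c, if_neg (by omega), if_pos (by omega)]
        · rw [if_neg c, if_pos (by omega), add_sub_cancel_right]
      rw [e1, e2] at h3
      have eX : qx C k = C.cX k := by
        unfold qx CD.cX
        rw [if_neg (by omega)]
      have eY : qy C k = k := by unfold qy; rw [if_neg a, if_neg (by omega)]
      have hw : wd C c0 k = (if C.cWl k = false then 3 else if C.cUp k = false then 0 else 1) := by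
        unfold wd CD.cWl CD.Dp
        rw [if_neg a, e1]
        by_cases c : k = 0
        · rw [if_pos c, if_pos (⟨by omega, Or.inl c⟩ : k < C.H ∧ (k = 0 ∨ C.A k < C.A (k - 1)))]
          cases g1 : C.cLo k <;> cases g2 : C.cUp k <;> rw [g1, g2] at h3 <;> simp at h3 ⊢
        · rw [if_neg c]
          by_cases d : k = C.H
          · rw [if_neg (show ¬ k < C.H by omega), if_pos d,
              if_neg (show ¬ (k < C.H ∧ (k = 0 ∨ C.A k < C.A (k - 1))) by omega)]
            cases g1 : C.cLo k <;> cases g2 : C.cUp k <;> rw [g1, g2] at h3 <;> simp at h3 ⊢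
          · rw [if_pos (show k < C.H by omega)]
            by_cases f : C.A (k - 1) < C.A k
            · rw [if_pos f, if_neg (show ¬ (k < C.H ∧ (k = 0 ∨ C.A k < C.A (k - 1))) by omega)]
              cases g1 : C.cLo k <;> cases g2 : C.cUp k <;> rw [g1, g2] at h3 <;> simp at h3 ⊢
            · have hne : C.A (k - 1) ≠ C.A k := by
                intro hA
                apply h3
                have h4 := C.sc (k - 1) (by omega) (by omega) (by rw [sub_add_cancel]; exact hA)
                unfold CD.cLo CD.cUp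
                rw [if_neg c, if_neg d, h4, sub_add_cancel]
              rw [if_neg f, if_pos (show k < C.H ∧ (k = 0 ∨ C.A k < C.A (k - 1)) by omega)]
              cases g1 : C.cLo k <;> cases g2 : C.cUp k <;> rw [g1, g2] at h3 <;> simp at h3 ⊢
      rw [if_neg a, if_pos b, eX, eY, hw]
      unfold CD.pe
      simp only
      by_cases p1 : C.cWl k = false
      · rw [if_pos p1, if_pos p1]; rfl
      · rw [if_neg p1, if_neg p1]
        by_cases p2 : C.cUp k = false
        · rw [if_pos p2, if_pos p2]; rfl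
        · rw [if_neg p2, if_neg p2]; rfl
    · have e : k = C.H + 1 := by omega
      subst e
      have ec : Pool.Agent.H20.W.col C c0 (C.H + 1) = C.CT := by
        unfold Pool.Agent.H20.W.col
        rw [if_neg (by omega), if_neg (by omega), if_neg (by omega), if_pos rfl]
      have ec' : Pool.Agent.H20.W.col C c0 (C.H + 1 + 1) = !c0 := by
        unfold Pool.Agent.H20.W.col
        rw [if_neg (by omega), if_neg (by omega), if_neg (by omega), if_neg (by omega)]
      rw [ec, ec'] at h3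
      have eX : qx C (C.H + 1) = C.W := by unfold qx; rw [if_pos (by omega)]
      have eY : qy C (C.H + 1) = C.H := by unfold qy; rw [if_neg (by omega), if_pos (by omega)]
      have hw : wd C c0 (C.H + 1) = (if C.CT = false then 0 else 2) := by
        unfold wd
        rw [if_neg (show ¬ C.H + 1 < 0 by omega), if_neg (show ¬ C.H + 1 = 0 by omega),
          if_neg (show ¬ C.H + 1 < C.H by omega), if_neg (show ¬ C.H + 1 = C.H by omega), ec]
      rw [if_neg a, if_neg b, eX, eY, hw]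
      unfold CD.pe
      simp only
      cases g1 : C.CT <;> cases g2 : c0 <;> rw [g1, g2] at h3
      · rfl
      · exact absurd rfl h3
      · exact absurd rfl h3
      · rfl

/-- the name of 54 -/
def neN (C : CD) (c0 : Bool) : Na C c0 → NE
  | none => NE.z
  | some k => toNE C k.1

lemma toNE_inj {k l : ℤ} (h1 : -1 ≤ k) (h2 : k ≤ C.H + 1) (h3 : -1 ≤ l) (h4 : l ≤ C.H + 1)
    (h : toNE C k = toNE C l) : k = l := by
  unfold toNE at h
  split_ifs at h <;> first | omega | (injection h)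

lemma toNE_ne_z (k : ℤ) : toNE C k ≠ NE.z := by
  unfold toNE
  split_ifs <;> simp

lemma neN_inj {x y : Na C c0} (h : neN C c0 x = neN C c0 y) : x = y := by
  cases x with
  | none =>
    cases y with
    | none => rfl
    | some l => exact absurd h.symm (toNE_ne_z _)
  | some k =>
    cases y with
    | none => exact absurd h (toNE_ne_z _)
    | some l =>
      have h1 := nm_range k
      have h2 := nm_range l
      rw [Subtype.ext (toNE_inj h1.1 h1.2 h2.1 h2.2 h)]

lemma ok_neN (x : Na C c0) : C.ok c0 (neN C c0 x) := by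
  cases x with
  | none => exact trivial
  | some k =>
    have h := (mem_MkF C c0).1 k.2
    exact (ok_toNE h.1 h.2.1).2 h.2.2

lemma pe_neN (v : ℤ × ℤ) (x : Na C c0) : C.pe n c0 v.1 v.2 (neN C c0 x) = crn C c0 n v x := by
  cases x with
  | none => rfl
  | some k => exact pe_toNE ((mem_MkF C c0).1 k.2)

lemma exists_neN {a : NE} (ha : C.ok c0 a) : ∃ x, neN C c0 x = a := by
  have hH := C.H0
  cases a with
  | z => exact ⟨none, rfl⟩
  | l Y =>
    have e : toNE C Y = NE.l Y := by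
      unfold toNE; rw [if_neg (by have := ha.1; omega), if_pos ha.2.1]
    have h1 : -1 ≤ Y := by have := ha.1; omega
    have h2 : Y ≤ C.H + 1 := by have := ha.2.1; omega
    exact ⟨some ⟨Y, (mem_MkF C c0).2 ⟨h1, h2, (ok_toNE h1 h2).1 (by rw [e]; exact ha)⟩⟩, e⟩
  | b =>
    have e : toNE C (-1) = NE.b := by unfold toNE; rw [if_pos (by omega)]
    exact ⟨some ⟨-1, (mem_MkF C c0).2 ⟨le_rfl, by omega, (ok_toNE le_rfl (by omega)).1
      (by rw [e]; exact ha)⟩⟩, e⟩
  | t =>
    have e : toNE C (C.H + 1) = NE.t := by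
      unfold toNE; rw [if_neg (by omega), if_neg (by omega)]
    exact ⟨some ⟨C.H + 1, (mem_MkF C c0).2 ⟨by omega, le_rfl, (ok_toNE (by omega) le_rfl).1
      (by rw [e]; exact ha)⟩⟩, e⟩

open Classical in
/-- open tiles of the rectangle outside of the room -/
noncomputable def wbox (C : CD) (n : ℤ) (cr : ℤ → Bool) : Finset (ℤ × ℤ) :=
  ((Icc (n * C.LO - 2) (n * C.W + 2) ×ˢ Icc (-2) (n * C.H + 2)).filter fun t =>
    ¬ RP C n t.1 t.2 ∧ fillC C n cr t.1 t.2 = true).image lt

lemma mem_wbox {cr : ℤ → Bool} {x y : ℤ} : lt (x, y) ∈ wbox C n cr ↔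
    (n * C.LO - 2 ≤ x ∧ x ≤ n * C.W + 2) ∧ (-2 ≤ y ∧ y ≤ n * C.H + 2) ∧ ¬ RP C n x y ∧
      fillC C n cr x y = true := by
  unfold wbox
  simp only [mem_image, mem_filter, mem_product, mem_Icc, Prod.exists]
  constructor
  · rintro ⟨x', y', ⟨⟨h1, h2⟩, h3, h4⟩, h5⟩
    have := lt_inj h5
    simp only [Prod.mk.injEq] at this
    obtain ⟨rfl, rfl⟩ := this
    exact ⟨h1, h2, h3, h4⟩
  · rintro ⟨h1, h2, h3, h4⟩
    exact ⟨x, y, ⟨⟨h1, h2⟩, h3, h4⟩, rfl⟩

/-- **The rectangle.** -/
lemma boxIn {v : ℤ × ℤ} (hn : 8 ≤ n) (he : n % 2 = 0) (hr0 : 0 < v.2) (hr1 : v.2 + 1 < n * C.H)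
    (hx0 : n * C.A (v.2 / n) ≤ v.1) (hx1 : v.1 < n * C.W) :
    BoxIn C n (crz c0 v.2) c0 v.1 v.2 (n * C.LO - 2) (n * C.W + 2) (-2) (n * C.H + 2)
      (wbox C n (crz c0 v.2)) where
  hn := hn
  he := he
  x1 := by omega
  x2 := by omega
  y1 := le_rfl
  y2 := by omega
  zin := ⟨hr0.le, by omega, hx0, hx1⟩
  r0 := hr0
  r1 := hr1
  cr0 := fun y _ h => by unfold crz; rw [if_pos h]
  cr1 := fun y h _ => by unfold crz; rw [if_neg (by omega)]
  room := fun x y h h' => (mem_wbox.1 h').2.2.1 h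
  col := fun x y h1 h2 h3 h4 h5 _ => by
    rw [mem_wbox]
    constructor
    · exact fun h => h.2.2.2
    · exact fun h => ⟨⟨h1, h2.le⟩, ⟨h3, h4.le⟩, h5, h⟩

/-- coordinates of the ends at the sides of the rectangle -/
lemma be_pos {k X1 X2 : ℤ} : ∃ x y : ℤ, C.be n c0 x0 r X1 X2 (toNE C k) = vt x y ∧
    (k < 0 → x = X2 ∧ -1 ≤ y ∧ y ≤ 0) ∧ (0 ≤ k → k ≤ C.H → x = X1 ∧ n * k - 1 ≤ y ∧ y ≤ n * k) ∧
    (C.H < k → x = X2 ∧ n * C.H - 1 ≤ y ∧ y ≤ n * C.H) := by
  have hH := C.H0
  obtain ⟨x, y, h1, -, h3, h4, h5⟩ := BoxIn.be_coord (C := C) (n := n) (c0 := c0) (x0 := x0) (r := r)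
    (X1 := X1) (X2 := X2) (toNE C k)
  refine ⟨x, y, h1, fun a => h4 ?_, fun a b => h3 k ?_, fun a => h5 ?_⟩
  · unfold toNE; rw [if_pos a]
  · unfold toNE; rw [if_neg (by omega), if_pos b]
  · unfold toNE; rw [if_neg (by omega), if_neg (by omega)]

/-- four marks do not cross -/
lemma no_cross {v : ℤ × ℤ} {ω : Finset (ℤ × ℤ)} (hn : 8 ≤ n) (he : n % 2 = 0) (hr0 : 0 < v.2)
    (hr1 : v.2 + 1 < n * C.H) (hx0 : n * C.A (v.2 / n) ≤ v.1) (hx1 : v.1 < n * C.W)
    (hω : ω ⊆ ER C n) {k : Fin 4 → Nm C c0} (h01 : (k 0).1 < (k 1).1) (h12 : (k 1).1 < (k 2).1)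
    (h23 : (k 2).1 < (k 3).1)
    (h1 : (GR C c0 n v ω).Reachable (nm C c0 n (k 0).1) (nm C c0 n (k 2).1))
    (h2 : (GR C c0 n v ω).Reachable (nm C c0 n (k 1).1) (nm C c0 n (k 3).1)) : False := by
  have hH := C.H0
  have B := boxIn (C := C) (c0 := c0) (v := v) hn he hr0 hr1 hx0 hx1
  have A := act_of (c0 := c0) hn he hr0 hr1 hx0 hx1.le hω
  have hpart : ∀ a, C.ok c0 a → ∃ b, C.ok c0 b ∧ b ≠ a ∧ (SG (LR C n (crz c0 v.2)) (DR v.1 v.2)
      (WR0 C n (crz c0 v.2) ∪ ω)).Reachable (C.pe n c0 v.1 v.2 a) (C.pe n c0 v.1 v.2 b) := by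
    intro a ha
    obtain ⟨x, rfl⟩ := exists_neN ha
    obtain ⟨y, -, h3, h4⟩ := A.pt x trivial
    refine ⟨neN C c0 y, ok_neN y, fun e => h3 (neN_inj e), ?_⟩
    rw [pe_neN, pe_neN]
    exact h4
  have key : ∀ i j : Fin 4, (GR C c0 n v ω).Reachable (nm C c0 n (k i).1) (nm C c0 n (k j).1) →
      (SG (Zb (n * C.LO - 2) (n * C.W + 2) (-2) (n * C.H + 2)) (DR v.1 v.2)
        (wbox C n (crz c0 v.2) ∪ ω)).Reachable
        (C.be n c0 v.1 v.2 (n * C.LO - 2) (n * C.W + 2) (toNE C (k i).1))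
        (C.be n c0 v.1 v.2 (n * C.LO - 2) (n * C.W + 2) (toNE C (k j).1)) := by
    intro i j hij
    refine (B.box_room hω hpart (ok_neN (some (k i))) (ok_neN (some (k j)))).2 ?_
    rw [pe_neN, pe_neN]
    exact hij
  have g1 := key 0 2 h1
  have g2 := key 1 3 h2
  have rg : ∀ i, -1 ≤ (k i).1 ∧ (k i).1 ≤ C.H + 1 := fun i => nm_range (k i)
  have r0 := rg 0; have r1 := rg 1; have r2 := rg 2; have r3 := rg 3
  have hps : ∀ i : ℕ, ∃ p : ℤ × ℤ, ∀ h : i < 4,
      C.be n c0 v.1 v.2 (n * C.LO - 2) (n * C.W + 2) (toNE C (k ⟨i, h⟩).1) = vt p.1 p.2 ∧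
      ((k ⟨i, h⟩).1 < 0 → p.1 = n * C.W + 2 ∧ -1 ≤ p.2 ∧ p.2 ≤ 0) ∧
      (0 ≤ (k ⟨i, h⟩).1 → (k ⟨i, h⟩).1 ≤ C.H → p.1 = n * C.LO - 2 ∧ n * (k ⟨i, h⟩).1 - 1 ≤ p.2 ∧
        p.2 ≤ n * (k ⟨i, h⟩).1) ∧
      (C.H < (k ⟨i, h⟩).1 → p.1 = n * C.W + 2 ∧ n * C.H - 1 ≤ p.2 ∧ p.2 ≤ n * C.H) := by
    intro i
    by_cases h : i < 4
    · obtain ⟨x, y, q⟩ := be_pos (C := C) (c0 := c0) (n := n) (x0 := v.1) (r := v.2)
        (k := (k ⟨i, h⟩).1) (X1 := n * C.LO - 2) (X2 := n * C.W + 2)
      exact ⟨(x, y), fun _ => q⟩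
    · exact ⟨(0, 0), fun h' => absurd h' h⟩
  choose p hp using hps
  obtain ⟨a0, a1, a2, a3⟩ := hp 0 (by norm_num)
  obtain ⟨b0, b1, b2, b3⟩ := hp 1 (by norm_num)
  obtain ⟨c0', c1, c2, c3⟩ := hp 2 (by norm_num)
  obtain ⟨d0, d1, d2, d3⟩ := hp 3 (by norm_num)
  have f0 : (⟨0, by norm_num⟩ : Fin 4) = 0 := rfl
  have f1 : (⟨1, by norm_num⟩ : Fin 4) = 1 := rfl
  have f2 : (⟨2, by norm_num⟩ : Fin 4) = 2 := rfl
  have f3 : (⟨3, by norm_num⟩ : Fin 4) = 3 := rfl
  rw [f0] at a0 a1 a2 a3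
  rw [f1] at b0 b1 b2 b3
  rw [f2] at c0' c1 c2 c3
  rw [f3] at d0 d1 d2 d3
  rw [a0, c0'] at g1
  rw [b0, d0] at g2
  have hn0 : 0 < n := by omega
  have m1 : ∀ a b : ℤ, a < b → n * a + n ≤ n * b := fun a b hab => by
    have := mul_le_mul_of_nonneg_left (show a + 1 ≤ b by omega) hn0.le
    rwa [mul_add, mul_one] at this
  have hLW : n * C.LO ≤ n * C.W := B.LO_W
  have hLA : n * C.LO ≤ v.1 := by
    have := B.zin.box hn0
    exact this.2.2.1
  have hH8 : n * 1 ≤ n * C.H := mul_le_mul_of_nonneg_left hH hn0.le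
  have s1 := b2 (by omega) (by omega)
  have s2 := c2 (by omega) (by omega)
  have t12 := m1 _ _ h12
  have u1 : n * 0 ≤ n * (k 1).1 := mul_le_mul_of_nonneg_left (by omega) hn0.le
  have u2 : n * (k 2).1 ≤ n * C.H := mul_le_mul_of_nonneg_left (by omega) hn0.le
  have cA : ((p 0).1 = n * C.W + 2 ∧ (p 0).2 ≤ 0 ∧ -1 ≤ (p 0).2) ∨
      ((p 0).1 = n * C.LO - 2 ∧ (p 0).2 < (p 1).2 ∧ -1 ≤ (p 0).2) := by
    rcases lt_or_ge (k 0).1 0 with h | h
    · have := a1 h
      exact Or.inl ⟨this.1, this.2.2, this.2.1⟩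
    · have h5 := a2 h (by omega)
      have h6 := m1 _ _ h01
      have h7 : n * 0 ≤ n * (k 0).1 := mul_le_mul_of_nonneg_left (by omega) hn0.le
      exact Or.inr ⟨h5.1, by omega, by omega⟩
  have cD : ((p 3).1 = n * C.W + 2 ∧ n * C.H - 1 ≤ (p 3).2 ∧ (p 3).2 ≤ n * C.H) ∨
      ((p 3).1 = n * C.LO - 2 ∧ (p 2).2 < (p 3).2 ∧ (p 3).2 ≤ n * C.H) := by
    rcases lt_or_ge C.H (k 3).1 with h | h
    · have := d3 h
      exact Or.inl this
    · have h5 := d2 (by omega) h
      have h6 := m1 _ _ h23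
      have h7 : n * (k 3).1 ≤ n * C.H := mul_le_mul_of_nonneg_left (by omega) hn0.le
      exact Or.inr ⟨h5.1, by omega, by omega⟩
  have Q : Q4 (n * C.LO - 2) (n * C.W + 2) (-2) (n * C.H + 2) 0 (n * C.H - 1) (fun i => (p i).1)
      (fun i => (p i).2) := by
    refine ⟨by omega, by omega, ?_, s1.1, s2.1, ?_, by show (p 1).2 < (p 2).2; omega, ?_, ?_⟩
    · rcases cA with h | h
      · exact Or.inl ⟨h.1, h.2.1⟩
      · exact Or.inr ⟨h.1, h.2.1⟩
    · rcases cD with h | h
      · exact Or.inl ⟨h.1, h.2.1⟩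
      · exact Or.inr ⟨h.1, h.2.1⟩
    · intro i hi
      show -2 ≤ (p i).2
      interval_cases i <;> omega
    · intro i hi
      show (p i).2 < n * C.H + 2
      interval_cases i <;> omega
  exact rect4 Q (x0 := v.1) (r := v.2) hr0 (by omega) (by omega) g1 g2

/-- **The strands of a room do not cross.** -/
theorem ncAll : NCAll := by
  intro C c0
  refine ⟨8, ?_⟩
  intro n hn he v hr0 hr1 hx0 hx1 ω hω x y hx hx' hy hy'
  have A := act_of (c0 := c0) hn he hr0 hr1 hx0 hx1.le hω
  set σ := sg C c0 n v ω with hσ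
  have inv : ∀ a, σ (σ a) = a := A.inv
  have sx : σ x ≠ none := fun e => hx' (by rw [← e, inv])
  have sy : σ y ≠ none := fun e => hy' (by rw [← e, inv])
  rintro ⟨k1, k2, k3⟩
  have r1 : (GR C c0 n v ω).Reachable (crn C c0 n v x) (crn C c0 n v (σ x)) :=
    (A.sgp_mem trivial).2.2
  have r2 : (GR C c0 n v ω).Reachable (crn C c0 n v y) (crn C c0 n v (σ y)) :=
    (A.sgp_mem trivial).2.2
  generalize σ x = x' at *
  generalize σ y = y' at *
  cases x with
  | none => exact hx rfl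
  | some a =>
    cases y with
    | none => exact hy rfl
    | some b =>
      cases x' with
      | none => exact sx rfl
      | some c =>
        cases y' with
        | none => exact sy rfl
        | some d =>
          exact no_cross hn he hr0 hr1 hx0 hx1 hω (k := ![a, b, c, d]) k1 k2 k3 r1 r2

/-- 25's `RInAll` -/
theorem rInAll : RInAll := rInAll_of ncAll

end Pool.Agent.H1.W
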